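import Pool.Agent.N565.LZ.Geo

/-!
# Balanced frames
-/

set_option autoImplicit false

namespace Pool.Agent.N565.LZ

open Finset Pool.Agent.W666.GB Filter Topology
open Pool.Agent.Y489.SM (bil bil_apply)

section diag

variable {J V : Type} [Fintype J] [DecidableEq J] [NormedAddCommGroup V] [InnerProductSpace ℝ V]

/-- An orthonormal basis in which a symmetric bilinear form is diagonal. -/
theorem exists_onb_diag (e : OrthonormalBasis J ℝ V) (B : V →ₗ[ℝ] V →ₗ[ℝ] ℝ)
    (hB : ∀ x y, B x y = B y x) :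
    ∃ (lam : J → ℝ) (v : OrthonormalBasis J ℝ V),
      (∀ i j, B (v i) (v j) = if i = j then lam i else 0) ∧
      (Matrix.of fun i j => B (e i) (e j)).det = ∏ i, lam i := by
  set M : Matrix J J ℝ := Matrix.of fun i j => B (e i) (e j) with hM
  have hH : M.IsHermitian := by
    ext i j
    simp [hM, hB (e i) (e j)]
  refine ⟨hH.eigenvalues, hH.eigenvectorBasis.map e.repr.symm, ?_, ?_⟩
  · intro i j
    have h0 : ∀ i, (hH.eigenvectorBasis.map e.repr.symm) i =
        ∑ k, (hH.eigenvectorBasis i) k • e k := by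
      intro i
      rw [OrthonormalBasis.map_apply, e.sum_repr_symm]
    rw [h0, h0]
    have h1 : B (∑ k, (hH.eigenvectorBasis i) k • e k) (∑ k, (hH.eigenvectorBasis j) k • e k) =
        ∑ k, (hH.eigenvectorBasis i) k * (M.mulVec (hH.eigenvectorBasis j)) k := by
      simp only [map_sum, LinearMap.sum_apply, map_smul, LinearMap.smul_apply, smul_eq_mul,
        Matrix.mulVec, dotProduct, hM, Matrix.of_apply, Finset.mul_sum]
      try rw [Finset.sum_comm]
      refine Finset.sum_congr rfl fun k _ => ?_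
      refine Finset.sum_congr rfl fun l _ => ?_
      ring
    rw [h1, hH.mulVec_eigenvectorBasis j]
    have h2 : inner ℝ (hH.eigenvectorBasis i) (hH.eigenvectorBasis j) =
        if i = j then (1 : ℝ) else 0 := orthonormal_iff_ite.1 hH.eigenvectorBasis.orthonormal i j
    rw [PiLp.inner_apply] at h2
    have h3 : ∑ k, (hH.eigenvectorBasis i) k * (hH.eigenvalues j • ⇑(hH.eigenvectorBasis j)) k =
        hH.eigenvalues j * ∑ k, inner ℝ ((hH.eigenvectorBasis i) k) ((hH.eigenvectorBasis j) k) := by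
      rw [Finset.mul_sum]
      refine Finset.sum_congr rfl fun k _ => ?_
      simp only [Pi.smul_apply, smul_eq_mul, RCLike.inner_apply, conj_trivial]
      ring
    rw [h3, h2]
    by_cases hij : i = j
    · subst hij
      simp
    · simp [hij]
  · have := hH.det_eq_prod_eigenvalues
    simpa using this

/-- the determinant of a bilinear form in another frame -/
theorem det_form (B : V →ₗ[ℝ] V →ₗ[ℝ] ℝ) (e : OrthonormalBasis J ℝ V) (u : J → V) :
    (Matrix.of fun i j => B (u i) (u j)).det =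
      (e.toBasis.det u) ^ 2 * (Matrix.of fun i j => B (e i) (e j)).det := by
  set T := e.toBasis.toMatrix u with hT
  set M : Matrix J J ℝ := Matrix.of fun i j => B (e i) (e j) with hM
  have h1 : ∀ i, u i = ∑ k, T k i • e k := by
    intro i
    have := e.toBasis.sum_toMatrix_smul_self u i
    simp only [OrthonormalBasis.coe_toBasis] at this
    exact this.symm
  have h2 : (Matrix.of fun i j => B (u i) (u j)) = T.transpose * M * T := by
    ext i j
    rw [Matrix.of_apply, h1 i, h1 j]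
    simp only [map_sum, LinearMap.sum_apply, map_smul, LinearMap.smul_apply, smul_eq_mul,
      Matrix.mul_apply, Matrix.transpose_apply, hM, Matrix.of_apply, Finset.sum_mul, Finset.mul_sum]
    refine Finset.sum_congr rfl fun k _ => ?_
    refine Finset.sum_congr rfl fun l _ => ?_
    ring
  rw [h2, Matrix.det_mul, Matrix.det_mul, Matrix.det_transpose, Module.Basis.det_apply, ← hT]
  ring

/-- the trace of a nonnegative symmetric matrix of determinant at least one -/
theorem trace_ge {M : Matrix J J ℝ} (hM : M.IsHermitian)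
    (hp : ∀ x : J → ℝ, 0 ≤ ∑ i, ∑ j, x i * M i j * x j) (hd : 1 ≤ M.det) :
    (Fintype.card J : ℝ) ≤ M.trace := by
  have h1 : ∀ i, 0 ≤ hM.eigenvalues i := by
    intro i
    have h2 := hM.eigenvalues_eq i
    have h3 := hp (hM.eigenvectorBasis i)
    rw [h2]
    refine h3.trans (le_of_eq ?_)
    simp only [dotProduct, Matrix.mulVec, Finset.mul_sum, Pi.star_apply, star_trivial,
      RCLike.re_to_real, mul_assoc]
  have hdet : M.det = ∏ i, hM.eigenvalues i := by
    have := hM.det_eq_prod_eigenvalues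
    simpa using this
  have h2 : ∀ i, 0 < hM.eigenvalues i := by
    intro i
    refine lt_of_le_of_ne (h1 i) fun h => ?_
    have : ∏ i, hM.eigenvalues i = 0 := Finset.prod_eq_zero (Finset.mem_univ i) h.symm
    rw [hdet, this] at hd
    linarith
  have h3 : M.trace = ∑ i, hM.eigenvalues i := by
    have := hM.trace_eq_sum_eigenvalues
    simpa using this
  rw [h3]
  have h4 : 0 ≤ ∑ i, Real.log (hM.eigenvalues i) := by
    rw [← Real.log_prod (fun i _ => (h2 i).ne'), ← hdet]
    exact Real.log_nonneg hd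
  have h5 : ∑ i, Real.log (hM.eigenvalues i) ≤ ∑ i, (hM.eigenvalues i - 1) :=
    Finset.sum_le_sum fun i _ => Real.log_le_sub_one_of_pos (h2 i)
  rw [Finset.sum_sub_distrib, Finset.sum_const, Finset.card_univ, nsmul_eq_mul, mul_one] at h5
  linarith

end diag

section bal

variable {m : ℕ} {V W : Type} [NormedAddCommGroup V] [InnerProductSpace ℝ V]
  [NormedAddCommGroup W] [InnerProductSpace ℝ W]

/-- the component in the direction of a unit timelike vector -/
noncomputable def bq (b : V →ₗ[ℝ] V →ₗ[ℝ] ℝ) (β : V →ₗ[ℝ] V →ₗ[ℝ] W) (q : W) :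
    V →ₗ[ℝ] V →ₗ[ℝ] ℝ := Real.sqrt (1 + ‖q‖ ^ 2) • b - bil β q

theorem bq_apply (b : V →ₗ[ℝ] V →ₗ[ℝ] ℝ) (β : V →ₗ[ℝ] V →ₗ[ℝ] W) (q : W) (x y : V) :
    bq b β q x y = Real.sqrt (1 + ‖q‖ ^ 2) * b x y - inner ℝ q (β x y) := rfl

theorem bq_pos {b : V →ₗ[ℝ] V →ₗ[ℝ] ℝ} {β : V →ₗ[ℝ] V →ₗ[ℝ] W} {ε : ℝ}
    (hc : ∀ x, ‖β x x‖ + ε * ‖x‖ ^ 2 ≤ b x x) (q : W) (x : V) :
    Real.sqrt (1 + ‖q‖ ^ 2) * ε * ‖x‖ ^ 2 ≤ bq b β q x x := by
  rw [bq_apply]
  have h1 : ‖q‖ ≤ Real.sqrt (1 + ‖q‖ ^ 2) := by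
    refine Real.le_sqrt_of_sq_le ?_
    linarith
  have h2 : inner ℝ q (β x x) ≤ Real.sqrt (1 + ‖q‖ ^ 2) * ‖β x x‖ :=
    (real_inner_le_norm _ _).trans (mul_le_mul_of_nonneg_right h1 (norm_nonneg _))
  have h3 : Real.sqrt (1 + ‖q‖ ^ 2) * (‖β x x‖ + ε * ‖x‖ ^ 2) ≤
      Real.sqrt (1 + ‖q‖ ^ 2) * b x x := mul_le_mul_of_nonneg_left (hc x) (Real.sqrt_nonneg _)
  nlinarith

theorem stationary {P : ℝ} {Q p : W} (h : ∀ q : W, Real.sqrt (1 + ‖p‖ ^ 2) * P - inner ℝ p Q ≤
    Real.sqrt (1 + ‖q‖ ^ 2) * P - inner ℝ q Q) : Real.sqrt (1 + ‖p‖ ^ 2) • Q = P • p := by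
  set u := Real.sqrt (1 + ‖p‖ ^ 2) with hu
  have hu0 : 0 < u := Real.sqrt_pos.2 (by positivity)
  refine ext_inner_left ℝ fun v => ?_
  rw [inner_smul_right, inner_smul_right]
  set F : ℝ → ℝ := fun t => Real.sqrt (1 + ‖p‖ ^ 2 + 2 * inner ℝ v p * t + ‖v‖ ^ 2 * t ^ 2) * P -
    (inner ℝ p Q + inner ℝ v Q * t) with hF
  have hF1 : ∀ t, F t = Real.sqrt (1 + ‖p + t • v‖ ^ 2) * P - inner ℝ (p + t • v) Q := by
    intro t
    simp only [hF]
    congr 2
    · congr 1
      rw [norm_add_sq_real, norm_smul, inner_smul_right, mul_pow, Real.norm_eq_abs, sq_abs,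
        real_inner_comm v p]
      ring
    · rw [inner_add_left, inner_smul_left, conj_trivial]
      ring
  have hmin : IsLocalMin F 0 := by
    refine Filter.Eventually.of_forall fun t => ?_
    rw [hF1, hF1, zero_smul, add_zero]
    exact h _
  have hd : HasDerivAt F (2 * inner ℝ v p / (2 * u) * P - inner ℝ v Q) 0 := by
    have h1 : HasDerivAt (fun t : ℝ => 1 + ‖p‖ ^ 2 + 2 * inner ℝ v p * t + ‖v‖ ^ 2 * t ^ 2)
        (2 * inner ℝ v p) 0 := by
      have ha := ((hasDerivAt_id (0 : ℝ)).const_mul (2 * inner ℝ v p)).const_add (1 + ‖p‖ ^ 2)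
      have hb := ((hasDerivAt_id (0 : ℝ)).pow 2).const_mul (‖v‖ ^ 2)
      have hc := ha.add hb
      have e1 : 2 * inner ℝ v p = 2 * inner ℝ v p * 1 + ‖v‖ ^ 2 * (((2 : ℕ) : ℝ) * id (0 : ℝ) ^ (2 - 1) * 1) := by
        simp
      refine HasDerivAt.congr_deriv ?_ e1.symm
      exact hc
    have h2 := h1.sqrt (by simp; positivity)
    have h3 := (h2.mul_const P)
    have h4 := ((hasDerivAt_id (0 : ℝ)).const_mul (inner ℝ v Q)).const_add (inner ℝ p Q)
    have h5 := h3.sub h4
    have e2 : 2 * inner ℝ v p / (2 * u) * P - inner ℝ v Q = 2 * inner ℝ v p / (2 * Real.sqrt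
        (1 + ‖p‖ ^ 2 + 2 * inner ℝ v p * 0 + ‖v‖ ^ 2 * 0 ^ 2)) * P - inner ℝ v Q * 1 := by
      simp [hu]
    refine HasDerivAt.congr_deriv ?_ e2.symm
    exact h5
  have h6 := hmin.hasDerivAt_eq_zero hd
  have h7 : inner ℝ v p / u * P = inner ℝ v Q := by
    have : 2 * inner ℝ v p / (2 * u) = inner ℝ v p / u := by
      field_simp
    rw [this] at h6
    linarith
  rw [← h7]
  field_simp

/-- **Balanced frames exist.** -/
theorem exists_balanced [FiniteDimensional ℝ W] (hm : 0 < m)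
    (e : OrthonormalBasis (Fin m × Bool) ℝ V) {b : V →ₗ[ℝ] V →ₗ[ℝ] ℝ}
    {β : V →ₗ[ℝ] V →ₗ[ℝ] W} (hb : ∀ x y, b x y = b y x) (hs : ∀ x y, β x y = β y x)
    {ε : ℝ} (hε : 0 < ε) (hc : ∀ x, ‖β x x‖ + ε * ‖x‖ ^ 2 ≤ b x x) :
    ∃ (v : Module.Basis (Fin m × Bool) ℝ V) (p : W),
      (∀ i j, bq b β p (v i) (v j) = if i = j then 1 else 0) ∧
      Real.sqrt (1 + ‖p‖ ^ 2) • ∑ i, β (v i) (v i) = (∑ i, b (v i) (v i)) • p := by
  have hcard : Fintype.card (Fin m × Bool) = 2 * m := by
    rw [Fintype.card_prod, Fintype.card_fin, Fintype.card_bool, mul_comm]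
  have hsym : ∀ q x y, bq b β q x y = bq b β q y x := by
    intro q x y
    rw [bq_apply, bq_apply, hb x y, hs x y]
  set φ : W → ℝ := fun q => (Matrix.of fun i j => bq b β q (e i) (e j)).det with hφ
  have hcont : Continuous φ := by
    refine Continuous.matrix_det ?_
    refine continuous_matrix fun i j => ?_
    simp only [Matrix.of_apply, bq_apply]
    fun_prop
  have hge : ∀ q, (ε * ‖q‖) ^ (2 * m) ≤ φ q := by
    intro q
    obtain ⟨lam, v, hv, hdet⟩ := exists_onb_diag e (bq b β q) (hsym q)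
    simp only [hφ]
    rw [hdet, ← hcard, ← Finset.card_univ, ← Finset.prod_const]
    refine Finset.prod_le_prod (fun i _ => by positivity) fun i _ => ?_
    have h1 := bq_pos hc q (v i)
    have h2 := hv i i
    rw [if_pos rfl] at h2
    rw [h2, v.orthonormal.1 i, one_pow, mul_one] at h1
    refine le_trans ?_ h1
    rw [mul_comm]
    refine mul_le_mul_of_nonneg_right ?_ hε.le
    exact Real.le_sqrt_of_sq_le (by linarith)
  have htend : Tendsto φ (cocompact W) atTop := by
    refine tendsto_atTop_mono hge ?_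
    refine (tendsto_pow_atTop (by omega)).comp ?_
    exact (tendsto_norm_cocompact_atTop).const_mul_atTop hε
  obtain ⟨p, hp⟩ := hcont.exists_forall_le htend
  obtain ⟨lam, v, hv, hdet⟩ := exists_onb_diag e (bq b β p) (hsym p)
  have hlam : ∀ i, 0 < lam i := by
    intro i
    have h1 := bq_pos hc p (v i)
    have h2 := hv i i
    rw [if_pos rfl] at h2
    rw [h2, v.orthonormal.1 i, one_pow, mul_one] at h1
    refine lt_of_lt_of_le ?_ h1
    have : 0 < Real.sqrt (1 + ‖p‖ ^ 2) := Real.sqrt_pos.2 (by positivity)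
    positivity
  have hw : ∀ i, IsUnit ((Real.sqrt (lam i))⁻¹) := fun i =>
    (inv_ne_zero (Real.sqrt_pos.2 (hlam i)).ne').isUnit
  set u : Module.Basis (Fin m × Bool) ℝ V := v.toBasis.isUnitSMul hw with hu
  have hui : ∀ i, u i = (Real.sqrt (lam i))⁻¹ • v i := by
    intro i
    rw [hu, Module.Basis.isUnitSMul_apply, OrthonormalBasis.coe_toBasis]
  have hI : ∀ i j, bq b β p (u i) (u j) = if i = j then 1 else 0 := by
    intro i j
    rw [hui, hui]
    simp only [map_smul, LinearMap.smul_apply, smul_eq_mul, hv i j]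
    by_cases hij : i = j
    · subst hij
      rw [if_pos rfl, if_pos rfl, ← mul_assoc, ← mul_inv, Real.mul_self_sqrt (hlam i).le,
        inv_mul_cancel₀ (hlam i).ne']
    · rw [if_neg hij, if_neg hij, mul_zero, mul_zero]
  refine ⟨u, p, hI, ?_⟩
  -- the trace is minimal at `p`
  have hd1 : (e.toBasis.det u) ^ 2 * φ p = 1 := by
    rw [← det_form (bq b β p) e u]
    have : (Matrix.of fun i j => bq b β p (u i) (u j)) = (1 : Matrix _ _ ℝ) := by
      ext i j
      rw [Matrix.of_apply, hI, Matrix.one_apply]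
    rw [this, Matrix.det_one]
  have hdq : ∀ q, 1 ≤ (Matrix.of fun i j => bq b β q (u i) (u j)).det := by
    intro q
    rw [det_form (bq b β q) e u, ← hd1]
    exact mul_le_mul_of_nonneg_left (hp q) (sq_nonneg _)
  have htr : ∀ q, (Fintype.card (Fin m × Bool) : ℝ) ≤ ∑ i, bq b β q (u i) (u i) := by
    intro q
    have h1 := trace_ge (M := Matrix.of fun i j => bq b β q (u i) (u j)) (by
      ext i j
      simp only [Matrix.conjTranspose_apply, Matrix.of_apply, star_trivial]
      exact hsym q _ _) (fun x => by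
        have h2 := bq_pos hc q (∑ i, x i • u i)
        have h3 : 0 ≤ Real.sqrt (1 + ‖q‖ ^ 2) * ε * ‖∑ i, x i • u i‖ ^ 2 := by positivity
        refine h3.trans (h2.trans (le_of_eq ?_))
        simp only [map_sum, LinearMap.sum_apply, map_smul, LinearMap.smul_apply, smul_eq_mul,
          Matrix.of_apply]
        rw [Finset.sum_comm]
        refine Finset.sum_congr rfl fun i _ => ?_
        rw [Finset.mul_sum]
        refine Finset.sum_congr rfl fun j _ => ?_
        ring) (hdq q)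
    exact h1
  have hfin : ∀ q, ∑ i, bq b β q (u i) (u i) = Real.sqrt (1 + ‖q‖ ^ 2) * (∑ i, b (u i) (u i)) -
      inner ℝ q (∑ i, β (u i) (u i)) := by
    intro q
    simp only [bq_apply]
    rw [Finset.sum_sub_distrib, Finset.mul_sum, inner_sum]
  refine stationary fun q => ?_
  rw [← hfin, ← hfin]
  refine le_trans (le_of_eq ?_) (htr q)
  simp only [hI, if_true]
  simp

end bal

end Pool.Agent.N565.LZ
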