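import Pool.Agent.N565.LZ.Hoef

/-!
# The mean is nonnegative for spectra with sum zero, if certain binomial sums are nonnegative
-/

set_option autoImplicit false

namespace Pool.Agent.N565.LZ

open MvPolynomial Finset

/-- the alternating binomial sum -/
def BB (r a b : ℕ) : ℤ :=
  ∑ i ∈ range (a + b + 1), ∑ j ∈ range (2 * r + 1), if i + j = a + r then
    (-1) ^ (r + j) * ((2 * r).choose j : ℤ) * (((a + b).choose i : ℤ) * a ^ i * b ^ (a + b - i)) else 0

theorem lfac_one : lfac 1 = ww := by
  unfold lfac ww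
  simp

theorem lfac_neg_one : lfac (-1) = wb := by
  unfold lfac wb
  simp [sub_eq_add_neg]

theorem lfac_mix (c : ℝ) : lfac c = C (((1 + c) / 2 : ℝ) : ℂ) * ww + C (((1 - c) / 2 : ℝ) : ℂ) * wb := by
  unfold lfac ww wb
  have h1 : (C (((1 + c) / 2 : ℝ) : ℂ) : P2) + C (((1 - c) / 2 : ℝ) : ℂ) = 1 := by
    rw [← C_add, ← Complex.ofReal_add]
    have : (1 + c) / 2 + (1 - c) / 2 = 1 := by ring
    rw [this]; simp
  have h2 : (C (((1 + c) / 2 : ℝ) : ℂ) : P2) - C (((1 - c) / 2 : ℝ) : ℂ) = C (c : ℂ) := by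
    rw [← C_sub, ← Complex.ofReal_sub]
    have : (1 + c) / 2 - (1 - c) / 2 = c := by ring
    rw [this]
  rw [C_mul]
  linear_combination (-X 0) * h1 - (C Complex.I * X 1) * h2

theorem mix_value (m r nA nB n a b : ℕ) (c : ℝ) (hn : nA + nB + n = 2 * m) (ha : nA + a = m)
    (hb : nB + b = m) (hc : (n : ℝ) * ((1 + c) / 2) = a) :
    (n : ℝ) ^ n * (EE (X 1 ^ (2 * r) * (ww ^ nA * wb ^ nB * lfac c ^ n))).re =
      cc m r * (BB r a b : ℝ) := by
  have hab : a + b = n := by omega
  have hc' : (n : ℝ) * ((1 - c) / 2) = b := by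
    have h1 : ((a + b : ℕ) : ℝ) = n := by rw [hab]
    push_cast at h1
    linarith
  set p : ℝ := (1 + c) / 2 with hp
  set q : ℝ := (1 - c) / 2 with hq
  have h1 : (X 1 ^ (2 * r) * (ww ^ nA * wb ^ nB * lfac c ^ n) : P2) =
      ∑ i ∈ range (n + 1), ((p ^ i * q ^ (n - i) * (n.choose i : ℝ) : ℝ) : ℂ) •
        (X 1 ^ (2 * r) * (ww ^ (nA + i) * wb ^ (nB + (n - i)))) := by
    rw [lfac_mix, ← hp, ← hq, add_pow, Finset.mul_sum, Finset.mul_sum]
    refine Finset.sum_congr rfl fun i _ => ?_
    rw [MvPolynomial.smul_eq_C_mul, mul_pow, mul_pow, pow_add, pow_add]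
    push_cast
    simp only [C_mul, C_pow, map_natCast]
    ring
  have h2 : EE (X 1 ^ (2 * r) * (ww ^ nA * wb ^ nB * lfac c ^ n)) =
      ((∑ i ∈ range (n + 1), (p ^ i * q ^ (n - i) * (n.choose i : ℝ)) *
        (cc m r * ∑ j ∈ range (2 * r + 1), (if nA + i + j = m + r then
          (-1) ^ (r + j) * ((2 * r).choose j : ℝ) else 0)) : ℝ) : ℂ) := by
    rw [h1, map_sum, Complex.ofReal_sum]
    refine Finset.sum_congr rfl fun i hi => ?_
    have hi' : i ≤ n := by have := Finset.mem_range.1 hi; omega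
    rw [map_smul, EE_main m r _ _ (by omega), smul_eq_mul, ← Complex.ofReal_mul]
  rw [h2, Complex.ofReal_re, Finset.mul_sum, BB, Int.cast_sum, Finset.mul_sum, hab]
  refine Finset.sum_congr rfl fun i hi => ?_
  have hi' : i ≤ n := by have := Finset.mem_range.1 hi; omega
  have h3 : (n : ℝ) ^ n * (p ^ i * q ^ (n - i)) = (a : ℝ) ^ i * (b : ℝ) ^ (n - i) := by
    have : (n : ℝ) ^ n = (n : ℝ) ^ i * (n : ℝ) ^ (n - i) := by
      rw [← pow_add]; congr 1; omega
    rw [this, ← hc, ← hc', mul_pow, mul_pow]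
    ring
  calc (n : ℝ) ^ n * ((p ^ i * q ^ (n - i) * (n.choose i : ℝ)) *
        (cc m r * ∑ j ∈ range (2 * r + 1), (if nA + i + j = m + r then
          (-1) ^ (r + j) * ((2 * r).choose j : ℝ) else 0)))
      = cc m r * (((n : ℝ) ^ n * (p ^ i * q ^ (n - i))) * (n.choose i : ℝ) *
        ∑ j ∈ range (2 * r + 1), (if nA + i + j = m + r then
          (-1) ^ (r + j) * ((2 * r).choose j : ℝ) else 0)) := by ring
    _ = _ := by
      rw [h3, Finset.mul_sum, Int.cast_sum]
      congr 1
      refine Finset.sum_congr rfl fun j _ => ?_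
      by_cases hj : i + j = a + r
      · rw [if_pos (by omega), if_pos hj]
        push_cast
        ring
      · rw [if_neg (by omega), if_neg hj]
        simp

variable {J : Type} [Fintype J] [DecidableEq J]

/-- **Nonnegativity of the mean.** -/
theorem HH_nonneg (m r : ℕ) (hJ : Fintype.card J = 2 * m)
    (hB : ∀ a ≤ m, ∀ b ≤ m, 0 ≤ BB r a b) (lam : J → ℝ) (hlam : lam ∈ KK J) :
    0 ≤ (HH r lam).re := by
  obtain ⟨l, hl, hmin, hext⟩ := exists_ext (J := J) r
  refine le_trans ?_ (hmin lam hlam)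
  obtain ⟨c, hc1, hc⟩ : ∃ c : ℝ, |c| ≤ 1 ∧ ∀ j, l j ≠ 1 → l j ≠ -1 → l j = c := by
    by_cases h : ∃ j, l j ≠ 1 ∧ l j ≠ -1
    · obtain ⟨j0, h1, h2⟩ := h
      refine ⟨l j0, hl.1 j0, fun j h3 h4 => ?_⟩
      have key : ∀ k, l k ≠ 1 → l k ≠ -1 → |l k| < 1 := by
        intro k h5 h6
        refine lt_of_le_of_ne (hl.1 k) fun h7 => ?_
        rcases (abs_eq zero_le_one).1 h7 with h8 | h8
        · exact h5 h8
        · exact h6 h8
      exact hext j j0 (key j h3 h4) (key j0 h1 h2)
    · push Not at h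
      exact ⟨0, by simp, fun j h1 h2 => absurd (h j h1) h2⟩
  set A := univ.filter fun j => l j = 1 with hA
  set A' := univ.filter fun j => ¬ l j = 1 with hA'
  set B := A'.filter fun j => l j = -1 with hBd
  set R := A'.filter fun j => ¬ l j = -1 with hR
  have hcard1 : A.card + A'.card = Fintype.card J := by
    rw [hA, hA', Finset.card_filter_add_card_filter_not]
    rfl
  have hcard2 : B.card + R.card = A'.card := by
    rw [hBd, hR, Finset.card_filter_add_card_filter_not]
  have hprod : ∏ j, lfac (l j) = ww ^ A.card * wb ^ B.card * lfac c ^ R.card := by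
    rw [← Finset.prod_filter_mul_prod_filter_not univ (fun j => l j = 1) fun j => lfac (l j),
      ← Finset.prod_filter_mul_prod_filter_not (univ.filter fun j => ¬ l j = 1)
        (fun j => l j = -1) fun j => lfac (l j), ← mul_assoc]
    congr 1
    · congr 1
      · rw [Finset.prod_congr rfl fun j hj => by rw [(Finset.mem_filter.1 hj).2, lfac_one],
          Finset.prod_const]
      · rw [Finset.prod_congr rfl fun j hj => by rw [(Finset.mem_filter.1 hj).2, lfac_neg_one],
          Finset.prod_const]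
    · rw [Finset.prod_congr rfl fun j hj => by
        rw [hc j (Finset.mem_filter.1 (Finset.mem_filter.1 hj).1).2 (Finset.mem_filter.1 hj).2],
          Finset.prod_const]
  have hsum : (A.card : ℝ) - B.card + R.card * c = 0 := by
    have h1 := hl.2
    rw [← Finset.sum_filter_add_sum_filter_not univ (fun j => l j = 1) l,
      ← Finset.sum_filter_add_sum_filter_not (univ.filter fun j => ¬ l j = 1)
        (fun j => l j = -1) l] at h1
    rw [Finset.sum_congr rfl (g := fun _ => (1 : ℝ)) fun j hj => (Finset.mem_filter.1 hj).2,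
      Finset.sum_const] at h1
    rw [Finset.sum_congr rfl (g := fun _ => (-1 : ℝ)) fun j hj => (Finset.mem_filter.1 hj).2,
      Finset.sum_const] at h1
    rw [Finset.sum_congr rfl (g := fun _ => c) fun j hj =>
      hc j (Finset.mem_filter.1 (Finset.mem_filter.1 hj).1).2 (Finset.mem_filter.1 hj).2,
      Finset.sum_const] at h1
    simp only [nsmul_eq_mul] at h1
    linarith
  have habs := abs_le.1 hc1
  have hR0 : (0 : ℝ) ≤ R.card := Nat.cast_nonneg _
  have hA1 : A.card ≤ m := by
    have h1 : (A.card : ℝ) ≤ B.card + R.card := by nlinarith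
    have h2 : A.card ≤ B.card + R.card := by exact_mod_cast h1
    omega
  have hB1 : B.card ≤ m := by
    have h1 : (B.card : ℝ) ≤ A.card + R.card := by nlinarith
    have h2 : B.card ≤ A.card + R.card := by exact_mod_cast h1
    omega
  obtain ⟨a, ha⟩ := Nat.exists_eq_add_of_le hA1
  obtain ⟨b, hb⟩ := Nat.exists_eq_add_of_le hB1
  have hn : A.card + B.card + R.card = 2 * m := by omega
  have hca : (R.card : ℝ) * ((1 + c) / 2) = a := by
    have h1 : (A.card : ℝ) + B.card + R.card = 2 * m := by exact_mod_cast hn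
    have h2 : (m : ℝ) = A.card + a := by exact_mod_cast ha
    linarith
  have hval := mix_value m r A.card B.card R.card a b c hn ha.symm hb.symm hca
  have hBB := hB a (by omega) b (by omega)
  unfold HH
  rw [hprod]
  have hpos : (0 : ℝ) < (R.card : ℝ) ^ R.card := by
    rcases Nat.eq_zero_or_pos R.card with h0 | h0
    · rw [h0]; simp
    · exact pow_pos (by exact_mod_cast h0) _
  have h9 : 0 ≤ cc m r * (BB r a b : ℝ) := mul_nonneg (cc_pos m r).le (by exact_mod_cast hBB)
  rw [← hval] at h9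
  exact nonneg_of_mul_nonneg_right h9 hpos

/-! ### The binomial sums -/

/-- the terms -/
noncomputable def TT (a b i : ℕ) : ℝ := ((a + b).choose i : ℝ) * a ^ i * b ^ (a + b - i)

theorem TT_nonneg (a b i : ℕ) : 0 ≤ TT a b i := by unfold TT; positivity

theorem TT_big (a b i : ℕ) (h : a + b < i) : TT a b i = 0 := by
  unfold TT
  rw [Nat.choose_eq_zero_of_lt h]; simp

theorem TT_succ (a b i : ℕ) : ((i : ℝ) + 1) * b * TT a b (i + 1) = ((a + b - i : ℕ) : ℝ) * a * TT a b i := by
  rcases lt_or_ge i (a + b) with h | h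
  · unfold TT
    have h1 : ((a + b).choose (i + 1) : ℝ) * (i + 1) = (a + b).choose i * ((a + b - i : ℕ) : ℝ) := by
      exact_mod_cast Nat.choose_succ_right_eq (a + b) i
    have h2 : a + b - i = (a + b - (i + 1)) + 1 := by omega
    have h3 : (b : ℝ) ^ (a + b - i) = b ^ (a + b - (i + 1)) * b := by rw [h2, pow_succ]
    rw [h3, pow_succ]
    linear_combination ((a : ℝ) ^ i * a * b * b ^ (a + b - (i + 1))) * h1
  · rw [TT_big a b (i + 1) (by omega), Nat.sub_eq_zero_of_le h]
    simp

theorem BB_two_eq (a b : ℕ) : (BB 2 a b : ℝ) = TT a b (a + 2) - 4 * TT a b (a + 1) + 6 * TT a b a -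
    4 * (if 1 ≤ a then TT a b (a - 1) else 0) + (if 2 ≤ a then TT a b (a - 2) else 0) := by
  unfold BB
  rw [Finset.sum_comm]
  simp only [Int.cast_sum]
  rw [Finset.sum_range_succ, Finset.sum_range_succ, Finset.sum_range_succ, Finset.sum_range_succ,
    Finset.sum_range_succ, Finset.sum_range_zero]
  have key : ∀ (j : ℕ) (κ : ℤ), (∑ i ∈ range (a + b + 1), ((if i + j = a + 2 then
      κ * (((a + b).choose i : ℤ) * a ^ i * b ^ (a + b - i)) else 0 : ℤ) : ℝ)) =
      κ * (if j ≤ a + 2 then TT a b (a + 2 - j) else 0) := by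
    intro j κ
    by_cases hj : j ≤ a + 2
    · rw [if_pos hj]
      by_cases h2 : a + 2 - j ≤ a + b
      · rw [Finset.sum_eq_single (a + 2 - j)]
        · rw [if_pos (by omega)]
          unfold TT
          push_cast
          ring
        · intro i _ hi
          rw [if_neg (by omega)]; simp
        · intro h3
          exact absurd (Finset.mem_range.2 (by omega)) h3
      · rw [TT_big _ _ _ (by omega), mul_zero]
        refine Finset.sum_eq_zero fun i hi => ?_
        have := Finset.mem_range.1 hi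
        rw [if_neg (by omega)]; simp
    · rw [if_neg hj, mul_zero]
      refine Finset.sum_eq_zero fun i hi => ?_
      rw [if_neg (by omega)]; simp
  rw [key 0, key 1, key 2, key 3, key 4]
  have e0 : a + 2 - 0 = a + 2 := rfl
  have e1 : a + 2 - 1 = a + 1 := by omega
  have e2 : a + 2 - 2 = a := by omega
  have e3 : a + 2 - 3 = a - 1 := by omega
  have e4 : a + 2 - 4 = a - 2 := by omega
  have c3 : (3 ≤ a + 2) ↔ (1 ≤ a) := by omega
  have c4 : (4 ≤ a + 2) ↔ (2 ≤ a) := by omega
  simp only [e1, e2, e3, e4, c3, c4]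
  rw [if_pos (by omega), if_pos (by omega), if_pos (by omega)]
  norm_num [Nat.choose]
  split_ifs <;> ring

theorem BB_two (a b : ℕ) : 0 ≤ BB 2 a b := by
  have h : (0 : ℝ) ≤ (BB 2 a b : ℝ) := by
    rw [BB_two_eq]
    rcases Nat.eq_zero_or_pos a with ha | ha
    · subst ha
      have h1 : TT 0 b (0 + 2) = 0 := by unfold TT; simp
      have h2 : TT 0 b (0 + 1) = 0 := by unfold TT; simp
      rw [h1, h2]
      have := TT_nonneg 0 b 0
      norm_num
      exact this
    rcases Nat.eq_zero_or_pos b with hb | hb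
    · subst hb
      have h1 : TT a 0 (a + 2) = 0 := TT_big _ _ _ (by omega)
      have h2 : TT a 0 (a + 1) = 0 := TT_big _ _ _ (by omega)
      have h3 : TT a 0 (a - 1) = 0 := by
        unfold TT
        have : a + 0 - (a - 1) = 1 := by omega
        rw [this]; simp
      have h4 : (if 2 ≤ a then TT a 0 (a - 2) else 0) = 0 := by
        split_ifs with h
        · unfold TT
          have : a + 0 - (a - 2) = 2 := by omega
          rw [this]; simp
        · rfl
      rw [h1, h2, h3, h4]
      have := TT_nonneg a 0 a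
      simp only [ite_self]
      linarith
    obtain ⟨x, rfl⟩ : ∃ x, a = x + 1 := ⟨a - 1, by omega⟩
    obtain ⟨y, rfl⟩ : ∃ y, b = y + 1 := ⟨b - 1, by omega⟩
    have hT := TT_nonneg (x + 1) (y + 1) (x + 1)
    set T := TT (x + 1) (y + 1) (x + 1) with hTd
    have hx : (0 : ℝ) ≤ x := Nat.cast_nonneg _
    have hy : (0 : ℝ) ≤ y := Nat.cast_nonneg _
    -- the ratios
    have r1 : TT (x + 1) (y + 1) (x + 1 + 1) = (x + 1) / (x + 2) * T := by
      have h1 := TT_succ (x + 1) (y + 1) (x + 1)
      rw [show x + 1 + (y + 1) - (x + 1) = y + 1 by omega] at h1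
      push_cast at h1
      have h2 : ((y : ℝ) + 1) * (((x : ℝ) + 2) * TT (x + 1) (y + 1) (x + 1 + 1) - (x + 1) * T) = 0 := by
        rw [hTd]; linarith
      have h3 : ((x : ℝ) + 2) * TT (x + 1) (y + 1) (x + 1 + 1) - (x + 1) * T = 0 :=
        (mul_eq_zero.1 h2).resolve_left (by positivity)
      field_simp
      linarith
    have r2 : TT (x + 1) (y + 1) (x + 1 + 2) = y * (x + 1) / ((x + 3) * (y + 1)) *
        ((x + 1) / (x + 2) * T) := by
      have h1 := TT_succ (x + 1) (y + 1) (x + 1 + 1)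
      rw [show x + 1 + (y + 1) - (x + 1 + 1) = y by omega, r1] at h1
      push_cast at h1
      have e : x + 1 + 2 = x + 1 + 1 + 1 := rfl
      rw [e]
      have h2 : (((x : ℝ) + 3) * (y + 1)) * TT (x + 1) (y + 1) (x + 1 + 1 + 1) =
          y * (x + 1) * ((x + 1) / (x + 2) * T) := by linarith
      field_simp
      field_simp at h2
      linarith
    have r3 : TT (x + 1) (y + 1) (x + 1 - 1) = (y + 1) / (y + 2) * T := by
      have h1 := TT_succ (x + 1) (y + 1) x
      rw [show x + 1 + (y + 1) - x = y + 2 by omega] at h1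
      push_cast at h1
      have h2 : ((x : ℝ) + 1) * (((y : ℝ) + 2) * TT (x + 1) (y + 1) x - (y + 1) * T) = 0 := by
        rw [hTd]; linarith
      have h3 : ((y : ℝ) + 2) * TT (x + 1) (y + 1) x - (y + 1) * T = 0 :=
        (mul_eq_zero.1 h2).resolve_left (by positivity)
      rw [Nat.add_sub_cancel]
      field_simp
      linarith
    have r4 : (if 2 ≤ x + 1 then TT (x + 1) (y + 1) (x + 1 - 2) else 0) =
        x * (y + 1) / ((y + 3) * (x + 1)) * ((y + 1) / (y + 2) * T) := by
      split_ifs with h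
      · obtain ⟨z, rfl⟩ : ∃ z, x = z + 1 := ⟨x - 1, by omega⟩
        have h1 := TT_succ (z + 1 + 1) (y + 1) z
        rw [show z + 1 + 1 + (y + 1) - z = y + 3 by omega] at h1
        rw [Nat.add_sub_cancel] at r3
        rw [r3] at h1
        have e : z + 1 + 1 - 2 = z := by omega
        rw [e]
        push_cast at h1 ⊢
        field_simp
        field_simp at h1
        linarith
      · have : x = 0 := by omega
        subst this
        simp
    rw [r1, r2, r3, r4, if_pos (by omega)]
    have hfin : y * (x + 1) / ((x + 3) * (y + 1)) * ((x + 1) / (x + 2) * T) -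
        4 * ((x + 1) / (x + 2) * T) + 6 * T - 4 * ((y + 1) / (y + 2) * T) +
        x * (y + 1) / ((y + 3) * (x + 1)) * ((y + 1) / (y + 2) * T) =
        T * (72 + 102 * y + 29 * y ^ 2 + y ^ 3 + 102 * x + 146 * (x * y) + 41 * (x * y ^ 2) +
          3 * (x * y ^ 3) + 29 * x ^ 2 + 41 * (x ^ 2 * y) + 6 * (x ^ 2 * y ^ 2) + x ^ 3 +
          3 * (x ^ 3 * y)) /
          ((x + 1) * (x + 2) * (x + 3) * ((y + 1) * (y + 2) * (y + 3))) := by
      field_simp
      ring
    rw [hfin]
    positivity
  exact_mod_cast h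

end Pool.Agent.N565.LZ
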