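import Pool.Agent.Y489.SM.Gs

/-!
# Gaussian means of products of two complex linear forms
-/

set_option autoImplicit false

namespace Pool.Agent.N565.LZ

open MvPolynomial Finset
open Pool.Agent.Y489.SM (mu mu_zero_pos mu_succ mu_one mu_add_two)

/-- polynomials in two variables -/
abbrev P2 := MvPolynomial (Fin 2) ℂ

/-- the Gaussian mean of a polynomial in two variables (up to a positive factor) -/
noncomputable def EE : P2 →ₗ[ℂ] ℂ :=
  (MvPolynomial.basisMonomials (Fin 2) ℂ).constr ℂ fun s => ((mu (s 0) * mu (s 1) : ℝ) : ℂ)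

theorem EE_monomial (s : Fin 2 →₀ ℕ) (c : ℂ) :
    EE (monomial s c) = c * ((mu (s 0) * mu (s 1) : ℝ) : ℂ) := by
  have h : (monomial s c : P2) = c • (MvPolynomial.basisMonomials (Fin 2) ℂ) s := by
    rw [MvPolynomial.coe_basisMonomials, MvPolynomial.smul_monomial, smul_eq_mul, mul_one]
  rw [h, map_smul, EE, Module.Basis.constr_basis, smul_eq_mul]

theorem EE_X (k : Fin 2) (f : P2) : EE (X k * f) = EE (pderiv k f) := by
  induction f using MvPolynomial.induction_on' with
  | monomial s c =>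
    rw [X, monomial_mul, pderiv_monomial, EE_monomial, EE_monomial, one_mul]
    fin_cases k
    · simp only [Fin.zero_eta, Fin.isValue, Finsupp.coe_add, Pi.add_apply, Finsupp.single_eq_same,
        Finsupp.coe_tsub, Pi.sub_apply]
      have h1 : (Finsupp.single (0 : Fin 2) 1 : Fin 2 →₀ ℕ) 1 = 0 := by simp
      rw [h1, add_comm 1 (s 0), mu_succ]
      push_cast
      simp only [zero_add, Nat.sub_zero]
      ring
    · simp only [Fin.mk_one, Fin.isValue, Finsupp.coe_add, Pi.add_apply, Finsupp.single_eq_same,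
        Finsupp.coe_tsub, Pi.sub_apply]
      have h1 : (Finsupp.single (1 : Fin 2) 1 : Fin 2 →₀ ℕ) 0 = 0 := by simp
      rw [h1, add_comm 1 (s 1), mu_succ]
      push_cast
      simp only [zero_add, Nat.sub_zero]
      ring
  | add p q hp hq => rw [mul_add, map_add, map_add, map_add, hp, hq]

/-- `x + i y` -/
noncomputable def ww : P2 := X 0 + C Complex.I * X 1

/-- `x - i y` -/
noncomputable def wb : P2 := X 0 - C Complex.I * X 1

/-- the derivation with `ww ↦ 0`, `wb ↦ 2` -/
noncomputable def Dw : Derivation ℂ P2 P2 := pderiv 0 + (C Complex.I : P2) • pderiv 1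

/-- the derivation with `wb ↦ 0`, `ww ↦ 2` -/
noncomputable def Db : Derivation ℂ P2 P2 := pderiv 0 - (C Complex.I : P2) • pderiv 1

theorem CI_sq : (C Complex.I : P2) * C Complex.I = -1 := by
  rw [← C_mul, Complex.I_mul_I, C_neg, C_1]

theorem Dw_ww : Dw ww = 0 := by
  simp only [Dw, ww, Derivation.add_apply, Derivation.smul_apply, map_add, Derivation.leibniz,
    pderiv_X_self, pderiv_C, smul_eq_mul, pderiv_X_of_ne (show (1 : Fin 2) ≠ 0 by decide),
    pderiv_X_of_ne (show (0 : Fin 2) ≠ 1 by decide)]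
  linear_combination CI_sq

theorem Dw_wb : Dw wb = 2 := by
  simp only [Dw, wb, Derivation.add_apply, Derivation.smul_apply, map_sub, Derivation.leibniz,
    pderiv_X_self, pderiv_C, smul_eq_mul, pderiv_X_of_ne (show (1 : Fin 2) ≠ 0 by decide),
    pderiv_X_of_ne (show (0 : Fin 2) ≠ 1 by decide)]
  linear_combination -CI_sq

theorem Db_wb : Db wb = 0 := by
  simp only [Db, wb, Derivation.sub_apply, Derivation.smul_apply, map_sub, Derivation.leibniz,
    pderiv_X_self, pderiv_C, smul_eq_mul, pderiv_X_of_ne (show (1 : Fin 2) ≠ 0 by decide),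
    pderiv_X_of_ne (show (0 : Fin 2) ≠ 1 by decide)]
  linear_combination CI_sq

theorem EE_ww (f : P2) : EE (ww * f) = EE (Dw f) := by
  have h1 : ww * f = X 0 * f + Complex.I • (X 1 * f) := by
    rw [ww, MvPolynomial.smul_eq_C_mul]; ring
  have h2 : Dw f = pderiv 0 f + Complex.I • pderiv 1 f := by
    rw [Dw, Derivation.add_apply, Derivation.smul_apply, MvPolynomial.smul_eq_C_mul, smul_eq_mul]
  rw [h1, h2, map_add, map_add, map_smul, map_smul, EE_X, EE_X]

theorem EE_wb (f : P2) : EE (wb * f) = EE (Db f) := by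
  have h1 : wb * f = X 0 * f - Complex.I • (X 1 * f) := by
    rw [wb, MvPolynomial.smul_eq_C_mul]; ring
  have h2 : Db f = pderiv 0 f - Complex.I • pderiv 1 f := by
    rw [Db, Derivation.sub_apply, Derivation.smul_apply, MvPolynomial.smul_eq_C_mul, smul_eq_mul]
  rw [h1, h2, map_sub, map_sub, map_smul, map_smul, EE_X, EE_X]

/-- the mixed moments -/
theorem EE_pow (a b : ℕ) : EE (ww ^ a * wb ^ b) =
    if a = b then (((2 ^ a * a.factorial * mu 0 ^ 2 : ℝ)) : ℂ) else 0 := by
  induction a generalizing b with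
  | zero =>
    rcases b with _ | b
    · have h : (ww ^ 0 * wb ^ 0 : P2) = monomial 0 1 := by simp
      rw [h, EE_monomial]
      simp [sq]
    · rw [if_neg (by omega), pow_zero, one_mul, pow_succ', EE_wb, Derivation.leibniz_pow, Db_wb]
      simp
  | succ a ih =>
    rw [pow_succ', mul_assoc, EE_ww, Derivation.leibniz, Derivation.leibniz_pow,
      Derivation.leibniz_pow, Dw_ww, Dw_wb]
    rcases b with _ | b
    · simp
    · simp only [smul_zero, smul_eq_mul, mul_zero, add_zero, Nat.add_sub_cancel]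
      have h : ww ^ a * ((b + 1) • (wb ^ b * 2)) = ((2 * (b + 1) : ℕ) : ℂ) • (ww ^ a * wb ^ b) := by
        have hC : (C (((2 * (b + 1) : ℕ) : ℂ)) : P2) = ((2 * (b + 1) : ℕ) : P2) := by
          rw [map_natCast]
        rw [MvPolynomial.smul_eq_C_mul, nsmul_eq_mul, hC]
        push_cast
        ring
      rw [h, map_smul, ih b]
      by_cases hab : a = b
      · subst hab
        rw [if_pos rfl, if_pos rfl, Nat.factorial_succ, smul_eq_mul]
        push_cast
        ring
      · rw [if_neg hab, if_neg (by omega), smul_zero]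

theorem X1_eq : (C (2 * Complex.I) : P2) * X 1 = ww - wb := by
  rw [ww, wb, C_mul]
  have : (C (2 : ℂ) : P2) = 2 := map_ofNat C 2
  rw [this]; ring

/-- the positive constant -/
noncomputable def cc (m r : ℕ) : ℝ := 2 ^ (m + r) * (m + r).factorial * mu 0 ^ 2 / 4 ^ r

theorem cc_pos (m r : ℕ) : 0 < cc m r := by
  have := mu_zero_pos
  unfold cc
  positivity

theorem EE_main (m r K L : ℕ) (h : K + L = 2 * m) : EE (X 1 ^ (2 * r) * (ww ^ K * wb ^ L)) =
    ((cc m r * ∑ j ∈ range (2 * r + 1), (if K + j = m + r then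
      (-1) ^ (r + j) * ((2 * r).choose j : ℝ) else 0) : ℝ) : ℂ) := by
  have h1 : ((-4 : ℂ)) ^ r • (X 1 ^ (2 * r) * (ww ^ K * wb ^ L) : P2) =
      ∑ j ∈ range (2 * r + 1), ((-1) ^ j * ((2 * r).choose j : ℂ)) •
        (ww ^ (K + j) * wb ^ (L + (2 * r - j))) := by
    have h2 : ((-4 : ℂ)) ^ r • (X 1 ^ (2 * r) : P2) = (ww + -wb) ^ (2 * r) := by
      rw [← sub_eq_add_neg, ← X1_eq, mul_pow, ← C_pow, MvPolynomial.smul_eq_C_mul]
      congr 2
      rw [pow_mul]
      congr 1
      rw [mul_pow, Complex.I_sq]; norm_num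
    rw [← smul_mul_assoc, h2, add_pow, Finset.sum_mul]
    refine Finset.sum_congr rfl fun j hj => ?_
    have hj' : j ≤ 2 * r := by have := Finset.mem_range.1 hj; omega
    have h3 : (-1 : P2) ^ (2 * r - j) = (-1) ^ j := by
      rcases Nat.even_or_odd j with hh | hh
      · rw [hh.neg_one_pow, Even.neg_one_pow]
        obtain ⟨c, hc⟩ := hh
        exact ⟨r - c, by omega⟩
      · rw [hh.neg_one_pow, Odd.neg_one_pow]
        obtain ⟨c, hc⟩ := hh
        exact ⟨r - c - 1, by omega⟩
    rw [neg_pow, h3, MvPolynomial.smul_eq_C_mul]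
    simp only [map_mul, map_pow, map_neg, map_one, map_natCast]
    rw [pow_add, pow_add]
    ring
  have h4 : ((-4 : ℂ)) ^ r * EE (X 1 ^ (2 * r) * (ww ^ K * wb ^ L)) =
      ∑ j ∈ range (2 * r + 1), ((-1) ^ j * ((2 * r).choose j : ℂ)) *
        (if K + j = m + r then (((2 ^ (m + r) * (m + r).factorial * mu 0 ^ 2 : ℝ)) : ℂ) else 0) := by
    rw [← smul_eq_mul, ← map_smul, h1, map_sum]
    refine Finset.sum_congr rfl fun j hj => ?_
    have hj' : j ≤ 2 * r := by have := Finset.mem_range.1 hj; omega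
    rw [map_smul, EE_pow, smul_eq_mul]
    congr 1
    by_cases hh : K + j = m + r
    · rw [if_pos (by omega), if_pos hh, hh]
    · rw [if_neg (by omega), if_neg hh]
  have h5 : ((-4 : ℂ)) ^ r ≠ 0 := pow_ne_zero _ (by norm_num)
  apply mul_left_cancel₀ h5
  rw [h4]
  push_cast
  rw [Finset.mul_sum, Finset.mul_sum]
  refine Finset.sum_congr rfl fun j _ => ?_
  by_cases hh : K + j = m + r
  · rw [if_pos hh, if_pos hh]
    unfold cc
    push_cast
    have h6 : (-4 : ℂ) ^ r = (-1) ^ r * 4 ^ r := by rw [← mul_pow]; norm_num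
    have h7 : (4 : ℂ) ^ r ≠ 0 := pow_ne_zero _ (by norm_num)
    have h8 : (-1 : ℂ) ^ r * (-1) ^ r = 1 := by rw [← mul_pow]; norm_num
    rw [h6, pow_add (-1 : ℂ) r j]
    have h9 : (-1 : ℂ) ^ r * 4 ^ r * (2 ^ (m + r) * (m + r).factorial * (mu 0 : ℂ) ^ 2 / 4 ^ r *
        ((-1) ^ r * (-1) ^ j * ((2 * r).choose j : ℂ))) = ((-1 : ℂ) ^ r * (-1) ^ r) *
        ((4 : ℂ) ^ r / 4 ^ r) * ((-1) ^ j * ((2 * r).choose j : ℂ) *
        (2 ^ (m + r) * (m + r).factorial * (mu 0 : ℂ) ^ 2)) := by ring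
    rw [h9, h8, div_self h7]
    ring
  · rw [if_neg hh, if_neg hh]; simp

end Pool.Agent.N565.LZ
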