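import Pool.Agent.N565.LZ.Bin

/-!
# The numerical condition on the half-dimension and the codimension
-/

set_option autoImplicit false

namespace Pool.Agent.N565.LZ

/-- the binomial sums are nonnegative up to `m` -/
def GoodB (m r : ℕ) : Prop := ∀ a ≤ m, ∀ b ≤ m, 0 ≤ BB r a b

theorem goodB_two (m : ℕ) : GoodB m 2 := fun a _ b _ => BB_two a b

theorem good3 : ∀ a : Fin 9, ∀ b : Fin 9, 0 ≤ BB 3 a b := by decide +kernel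

theorem good4 : ∀ a : Fin 5, ∀ b : Fin 5, 0 ≤ BB 4 a b := by decide +kernel

theorem good5 : ∀ a : Fin 4, ∀ b : Fin 4, 0 ≤ BB 5 a b := by decide +kernel

theorem goodB_three {m : ℕ} (h : m ≤ 8) : GoodB m 3 := fun a ha b hb =>
  good3 ⟨a, by omega⟩ ⟨b, by omega⟩

theorem goodB_four {m : ℕ} (h : m ≤ 4) : GoodB m 4 := fun a ha b hb =>
  good4 ⟨a, by omega⟩ ⟨b, by omega⟩

theorem goodB_five {m : ℕ} (h : m ≤ 3) : GoodB m 5 := fun a ha b hb =>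
  good5 ⟨a, by omega⟩ ⟨b, by omega⟩

/-- `N ≤ 5`, or `N ≤ 7` and `m ≤ 8`, or `N ≤ 9` and `m ≤ 4`, or `N ≤ 11` and `m ≤ 3` -/
def SmallCodim (m N : ℕ) : Prop :=
  N ≤ 5 ∨ (N ≤ 7 ∧ m ≤ 8) ∨ (N ≤ 9 ∧ m ≤ 4) ∨ (N ≤ 11 ∧ m ≤ 3)

theorem SmallCodim.good {m N : ℕ} (h : SmallCodim m N) : ∃ r, N ≤ 2 * r + 1 ∧ GoodB m r := by
  rcases h with h | ⟨h, h'⟩ | ⟨h, h'⟩ | ⟨h, h'⟩
  · exact ⟨2, h, goodB_two m⟩
  · exact ⟨3, h, goodB_three h'⟩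
  · exact ⟨4, h, goodB_four h'⟩
  · exact ⟨5, h, goodB_five h'⟩

theorem SmallCodim.mono {m k N : ℕ} (h : SmallCodim m N) (hk : k ≤ m) : SmallCodim k N := by
  rcases h with h | ⟨h, h'⟩ | ⟨h, h'⟩ | ⟨h, h'⟩
  · exact Or.inl h
  · exact Or.inr (Or.inl ⟨h, hk.trans h'⟩)
  · exact Or.inr (Or.inr (Or.inl ⟨h, hk.trans h'⟩))
  · exact Or.inr (Or.inr (Or.inr ⟨h, hk.trans h'⟩))

end Pool.Agent.N565.LZ
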