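import Pool.Agent.N565.LZ.Bal
import Pool.Agent.Y519.HB.Last

/-!
# The sign of the Gauss–Bonnet–Chern integrand for causal second fundamental forms
-/

set_option autoImplicit false

namespace Pool.Agent.N565.LZ

open Finset Pool.Agent.W666.GB Pool.Agent.W669.HD Pool.Agent.Y519.HB Filter Topology
open Pool.Agent.Y489.SM (bil bil_apply gauss shift gauss_curv shift_curv)

section sign

variable {m : ℕ} {V W : Type} [NormedAddCommGroup V] [InnerProductSpace ℝ V]
  [NormedAddCommGroup W] [InnerProductSpace ℝ W]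

theorem gbc_zero' (e : OrthonormalBasis (Fin 0 × Bool) ℝ V) (R : V → V → V → V → ℝ) :
    0 ≤ (-1 : ℝ) ^ 0 * gbc e R := by
  rw [pow_zero, one_mul, gbc]
  refine mul_nonneg (by positivity) ?_
  refine Finset.sum_nonneg fun σ _ => Finset.sum_nonneg fun τ _ => ?_
  have h1 : σ = 1 := Subsingleton.elim _ _
  have h2 : τ = 1 := Subsingleton.elim _ _
  rw [h1, h2]
  simp

theorem gbc_cont (e : OrthonormalBasis (Fin m × Bool) ℝ V) (b : V →ₗ[ℝ] V →ₗ[ℝ] ℝ)
    (β : V →ₗ[ℝ] V →ₗ[ℝ] W) :
    Continuous fun ε : ℝ => gbc e (lgauss (b + ε • innerₗ V) β) := by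
  unfold gbc lgauss
  simp only [LinearMap.add_apply, LinearMap.smul_apply, innerₗ_apply_apply, smul_eq_mul]
  fun_prop

/-- **The sign of the Gauss–Bonnet–Chern integrand of causal forms.** -/
theorem causal_sign [FiniteDimensional ℝ W] (e : OrthonormalBasis (Fin m × Bool) ℝ V)
    {b : V →ₗ[ℝ] V →ₗ[ℝ] ℝ} {β : V →ₗ[ℝ] V →ₗ[ℝ] W} (hb : ∀ x y, b x y = b y x)
    (hs : ∀ x y, β x y = β y x) (hc : ∀ x, ‖β x x‖ ≤ b x x)
    (hN : SmallCodim m (Module.finrank ℝ W)) : 0 ≤ (-1) ^ m * gbc e (lgauss b β) := by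
  rcases Nat.eq_zero_or_pos m with hm | hm
  · subst hm
    exact gbc_zero' e _
  obtain ⟨r, hr, hG⟩ := hN.good
  have hpos : ∀ ε : ℝ, 0 < ε → 0 ≤ (-1 : ℝ) ^ m * gbc e (lgauss (b + ε • innerₗ V) β) := by
    intro ε hε
    have hb' : ∀ x y, (b + ε • innerₗ V) x y = (b + ε • innerₗ V) y x := by
      intro x y
      simp only [LinearMap.add_apply, LinearMap.smul_apply, innerₗ_apply_apply, smul_eq_mul]
      rw [hb x y, real_inner_comm]
    have hc' : ∀ x, ‖β x x‖ + ε * ‖x‖ ^ 2 ≤ (b + ε • innerₗ V) x x := by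
      intro x
      simp only [LinearMap.add_apply, LinearMap.smul_apply, innerₗ_apply_apply, smul_eq_mul,
        real_inner_self_eq_norm_sq]
      linarith [hc x]
    obtain ⟨v, p, hI, hT⟩ := exists_balanced hm e hb' hs hε hc'
    refine sign_of_balanced hr hG e hb' hs (fun x => ?_) v p (Real.sqrt (1 + ‖p‖ ^ 2))
      (Real.sq_sqrt (by positivity)) (Real.sqrt_pos.2 (by positivity)) (fun i j => ?_) hT
    · have := hc' x
      have h2 : 0 ≤ ε * ‖x‖ ^ 2 := by positivity
      linarith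
    · rw [← hI i j, bq_apply]
  have hlim : Tendsto (fun ε : ℝ => (-1 : ℝ) ^ m * gbc e (lgauss (b + ε • innerₗ V) β))
      (𝓝[>] 0) (𝓝 ((-1 : ℝ) ^ m * gbc e (lgauss (b + (0 : ℝ) • innerₗ V) β))) :=
    ((gbc_cont e b β).const_mul _ |>.tendsto 0).mono_left nhdsWithin_le_nhds
  rw [zero_smul, add_zero] at hlim
  exact ge_of_tendsto hlim (eventually_nhdsWithin_of_forall fun ε hε => hpos ε hε)

end sign

section classes

variable {V : Type} [NormedAddCommGroup V] [InnerProductSpace ℝ V]

/-- `S` is the tensor of the Gauss equation of a causal form with values in the Lorentzian space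
`ℝ ⊕ ℝᴺ` which lives on the subspace `U`: `b` and `β_1, …, β_N` are symmetric bilinear forms on `U`
(extended by zero), `(b(x,x), β_1(x,x), …, β_N(x,x))` lies in the closed future light cone for all
`x`, and `S(x,y,z,w) = ∑ (β_k(x,z) β_k(y,w) - β_k(x,w) β_k(y,z)) - (b(x,z) b(y,w) - b(x,w) b(y,z))`. -/
def CausalOn (U : Submodule ℝ V) (N : ℕ) (S : V → V → V → V → ℝ) : Prop :=
  ∃ (b : V → V → ℝ) (β : Fin N → V → V → ℝ), SymForm U b ∧ (∀ k, SymForm U (β k)) ∧
    (∀ x, 0 ≤ b x x ∧ ∑ k, β k x x ^ 2 ≤ b x x ^ 2) ∧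
    ∀ x y z w, S x y z w = (∑ k, (β k x z * β k y w - β k x w * β k y z)) -
      (b x z * b y w - b x w * b y z)

/-- a symmetric bilinear form as a linear map -/
noncomputable def toLin {U : Submodule ℝ V} {b : V → V → ℝ} (h : SymForm U b) :
    V →ₗ[ℝ] V →ₗ[ℝ] ℝ :=
  LinearMap.mk₂ ℝ b h.add (fun t x y => h.smul t x y)
    (fun x y y' => by rw [h.symm, h.add, h.symm y, h.symm y'])
    (fun t x y => by rw [h.symm, h.smul, h.symm y, smul_eq_mul])

/-- a family of symmetric bilinear forms as a linear map -/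
noncomputable def toLinN {U : Submodule ℝ V} {N : ℕ} {β : Fin N → V → V → ℝ}
    (h : ∀ k, SymForm U (β k)) : V →ₗ[ℝ] V →ₗ[ℝ] EuclideanSpace ℝ (Fin N) :=
  LinearMap.mk₂ ℝ (fun x y => WithLp.toLp 2 fun k => β k x y)
    (fun x x' y => by ext k; exact (h k).add x x' y)
    (fun t x y => by ext k; exact (h k).smul t x y)
    (fun x y y' => by
      ext k
      show β k x (y + y') = β k x y + β k x y'
      rw [(h k).symm, (h k).add, (h k).symm y, (h k).symm y'])
    (fun t x y => by
      ext k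
      show β k x (t • y) = t * β k x y
      rw [(h k).symm, (h k).smul, (h k).symm y])

theorem CausalOn.lin {U : Submodule ℝ V} {N : ℕ} {S : V → V → V → V → ℝ} (h : CausalOn U N S) :
    ∃ (b : V →ₗ[ℝ] V →ₗ[ℝ] ℝ) (β : V →ₗ[ℝ] V →ₗ[ℝ] EuclideanSpace ℝ (Fin N)),
    (∀ x y, b x y = b y x) ∧ (∀ x y, β x y = β y x) ∧ (∀ x, ‖β x x‖ ≤ b x x) ∧
    (∀ x ∈ Uᗮ, ∀ y, b x y = 0 ∧ β x y = 0) ∧
    ∀ x y z w, S x y z w = inner ℝ (β x z) (β y w) - inner ℝ (β x w) (β y z) -
      (b x z * b y w - b x w * b y z) := by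
  obtain ⟨b, β, hb, hβ, hc, hS⟩ := h
  refine ⟨toLin hb, toLinN hβ, fun x y => hb.symm x y, fun x y => ?_, fun x => ?_,
    fun x hx y => ⟨hb.lives x hx y, ?_⟩, fun x y z w => ?_⟩
  · ext k
    exact (hβ k).symm x y
  · obtain ⟨h1, h2⟩ := hc x
    refine abs_le_of_sq_le_sq' ?_ h1 |>.2
    rw [EuclideanSpace.real_norm_sq_eq]
    exact h2
  · ext k
    exact (hβ k).lives x hx y
  · rw [hS]
    have h1 : ∀ x y z w : V, inner ℝ (toLinN hβ x z) (toLinN hβ y w) =
        ∑ k, β k x z * β k y w := by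
      intro x y z w
      rw [PiLp.inner_apply]
      refine Finset.sum_congr rfl fun k _ => ?_
      rw [RCLike.inner_apply, conj_trivial, mul_comm]
      rfl
    rw [h1, h1, ← Finset.sum_sub_distrib]
    rfl

/-- Blocks of any dimensions which carry causal Gauss tensors of small codimension, minus squares
`(x ∧ y)²` with `x` in one block and `y` in one block, minus `δ` times the unit tensor. -/
def CausalBlocks (δ : ℝ) (R : V → V → V → V → ℝ) : Prop :=
  ∃ (r : ℕ) (U : Fin r → Submodule ℝ V) (N : Fin r → ℕ) (S : Fin r → V → V → V → V → ℝ) (n : ℕ)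
    (x y : Fin n → V) (p q : Fin n → Fin r), OrthSum U ∧
    (∀ i, SmallCodim (Module.finrank ℝ (U i) / 2) (N i)) ∧ (∀ i, CausalOn (U i) (N i) (S i)) ∧
    (∀ k, x k ∈ U (p k)) ∧ (∀ k, y k ∈ U (q k)) ∧
    ∀ a b c d, R a b c d = (∑ i, S i a b c d) - (∑ k, sqDec (x k) (y k) a b c d) -
      δ * unitT a b c d

theorem CausalOn.curv {U : Submodule ℝ V} {N : ℕ} {S : V → V → V → V → ℝ}
    (h : CausalOn U N S) : AlgCurv S := by
  obtain ⟨b, β, hb, hs, -, -, hS⟩ := h.lin
  have : S = lgauss b β := by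
    funext x y z w
    exact hS x y z w
  rw [this]
  exact lgauss_curv hb hs

theorem CausalOn.lives {U : Submodule ℝ V} {N : ℕ} {S : V → V → V → V → ℝ}
    (h : CausalOn U N S) : LivesOn U S := by
  obtain ⟨b, β, hb, hs, -, hU, hS⟩ := h.lin
  intro x hx y z w
  rw [hS, (hU x hx z).1, (hU x hx w).1, (hU x hx z).2, (hU x hx w).2]
  simp

theorem CausalOn.hopf [FiniteDimensional ℝ V] {U : Submodule ℝ V} {N : ℕ}
    {S : V → V → V → V → ℝ} (h : CausalOn U N S)
    (hN : SmallCodim (Module.finrank ℝ U / 2) N) : HopfOn U S := by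
  obtain ⟨b, β, hb, hs, hc, -, hS⟩ := h.lin
  intro k E hE e
  have hfin : FiniteDimensional ℝ E := Module.Finite.of_basis e.toBasis
  have h1 : 2 * k ≤ Module.finrank ℝ U := by
    have h2 := Submodule.finrank_mono hE
    rw [Module.finrank_eq_card_basis e.toBasis, Fintype.card_prod, Fintype.card_fin,
      Fintype.card_bool] at h2
    omega
  have h3 : SmallCodim k (Module.finrank ℝ (EuclideanSpace ℝ (Fin N))) := by
    rw [finrank_euclideanSpace_fin]
    exact hN.mono (by omega)
  have h4 := causal_sign e (b := b.compl₁₂ E.subtype E.subtype) (β := β.compl₁₂ E.subtype E.subtype)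
    (fun x y => hb _ _) (fun x y => hs _ _) (fun x => hc _) h3
  have h5 : (fun x y z w : E => S x y z w) =
      lgauss (b.compl₁₂ E.subtype E.subtype) (β.compl₁₂ E.subtype E.subtype) := by
    funext x y z w
    exact hS x y z w
  rw [h5]
  exact h4

theorem CausalBlocks.hopf [FiniteDimensional ℝ V] {δ : ℝ} {R : V → V → V → V → ℝ}
    (h : CausalBlocks δ R) : HopfBlocks δ R := by
  obtain ⟨r, U, N, S, n, x, y, p, q, h1, h2, h3, h4, h5, h6⟩ := h
  exact ⟨r, U, S, n, x, y, p, q, h1, fun i => (h3 i).curv, fun i => (h3 i).lives,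
    fun i => (h3 i).hopf (h2 i), h4, h5, h6⟩

theorem causal_bound {m : ℕ} (e : OrthonormalBasis (Fin m × Bool) ℝ V) {δ : ℝ} (hδ : 0 ≤ δ)
    {R : V → V → V → V → ℝ} (h : CausalBlocks δ R) : roundGB m δ ≤ (-1) ^ m * gbc e R := by
  have hfin : FiniteDimensional ℝ V := Module.Finite.of_basis e.toBasis
  exact cls_bound e hδ (Or.inl h.hopf)

/-- Integrated form. -/
theorem field_causal {m : ℕ} {M : Type} [MeasurableSpace M] (μ : MeasureTheory.Measure M)
    (K : CurvField m M) (h : ∀ p, CausalBlocks 0 (K.R p)) :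
    0 ≤ (-1) ^ m * ∫ p, K.gb p ∂μ :=
  field_cls μ K fun p => by
    have hfin : FiniteDimensional ℝ (K.V p) := Module.Finite.of_basis (K.e p).toBasis
    exact Or.inl (h p).hopf

/-- Integrated form with a constant curvature part. -/
theorem field_causalδ {m : ℕ} {M : Type} [MeasurableSpace M] (μ : MeasureTheory.Measure M)
    [MeasureTheory.IsFiniteMeasure μ] (K : CurvField m M) (hi : MeasureTheory.Integrable K.gb μ)
    {δ : ℝ} (hδ : 0 ≤ δ) (h : ∀ p, CausalBlocks δ (K.R p)) :
    roundGB m δ * μ.real Set.univ ≤ (-1) ^ m * ∫ p, K.gb p ∂μ :=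
  field_clsδ μ K hi hδ fun p => by
    have hfin : FiniteDimensional ℝ (K.V p) := Module.Finite.of_basis (K.e p).toBasis
    exact Or.inl (h p).hopf

/-- second fundamental forms: symmetric bilinear maps from the tangent space `V` to the normal
space `W` -/
structure SecForm {W : Type} [NormedAddCommGroup W] [InnerProductSpace ℝ W] (β : V → V → W) :
    Prop where
  symm : ∀ x y, β x y = β y x
  add : ∀ x x' y, β (x + x') y = β x y + β x' y
  smul : ∀ (t : ℝ) (x y : V), β (t • x) y = t • β x y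

/-- the curvature tensor of a submanifold with second fundamental form `β` of a space of constant
curvature `-c` (Gauss equation) -/
noncomputable def gaussT {W : Type} [NormedAddCommGroup W] [InnerProductSpace ℝ W] (c : ℝ)
    (β : V → V → W) (x y z w : V) : ℝ :=
  inner ℝ (β x z) (β y w) - inner ℝ (β x w) (β y z) - c * unitT x y z w

/-- **Submanifolds of space forms of curvature `-c` with second fundamental form bounded by
`√(c - δ)`.** -/
theorem space_form {m : ℕ} {W : Type} [NormedAddCommGroup W] [InnerProductSpace ℝ W]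
    [FiniteDimensional ℝ W] (e : OrthonormalBasis (Fin m × Bool) ℝ V) {β : V → V → W}
    (hs : SecForm β) {c δ : ℝ} (hδ : 0 ≤ δ) (hc : δ ≤ c)
    (hβ : ∀ x, ‖β x x‖ ^ 2 ≤ (c - δ) * ‖x‖ ^ 4) (hN : SmallCodim m (Module.finrank ℝ W)) :
    roundGB m δ ≤ (-1) ^ m * gbc e (gaussT c β) := by
  have hfin : FiniteDimensional ℝ V := Module.Finite.of_basis e.toBasis
  set f := stdOrthonormalBasis ℝ W with hf
  have hpar : ∀ u v : W, ∑ k, inner ℝ (f k) u * inner ℝ (f k) v = inner ℝ u v := by
    intro u v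
    rw [← f.sum_inner_mul_inner u v]
    refine Finset.sum_congr rfl fun k _ => ?_
    rw [real_inner_comm u (f k)]
  have htop : ∀ x ∈ (⊤ : Submodule ℝ V)ᗮ, x = 0 := by
    intro x hx
    rwa [Submodule.top_orthogonal_eq_bot, Submodule.mem_bot] at hx
  refine causal_bound e hδ ⟨1, fun _ => ⊤, fun _ => Module.finrank ℝ W,
    fun _ => gaussT (c - δ) β, 0, fun k => k.elim0, fun k => k.elim0,
      fun _ => 0, fun _ => 0, ⟨?_, ?_⟩, ?_, ?_, fun k => k.elim0, fun k => k.elim0, ?_⟩
  · intro i j hij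
    exact absurd (Subsingleton.elim i j) hij
  · exact ciSup_const
  · intro _
    rw [finrank_top, Module.finrank_eq_card_basis e.toBasis, Fintype.card_prod, Fintype.card_fin,
      Fintype.card_bool, Nat.mul_div_cancel _ two_pos]
    exact hN
  · intro _
    refine ⟨fun x y => Real.sqrt (c - δ) * inner ℝ x y, fun k x y => inner ℝ (f k) (β x y),
      ⟨?_, ?_, ?_, ?_⟩, fun k => ⟨?_, ?_, ?_, ?_⟩, ?_, ?_⟩
    · intro x x' y; rw [inner_add_left]; ring
    · intro t x y; rw [inner_smul_left, conj_trivial]; ring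
    · intro x y; rw [real_inner_comm]
    · intro x hx y; rw [htop x hx, inner_zero_left, mul_zero]
    · intro x x' y; beta_reduce; rw [hs.add, inner_add_right]
    · intro t x y; beta_reduce; rw [hs.smul, inner_smul_right]
    · intro x y; beta_reduce; rw [hs.symm]
    · intro x hx y
      beta_reduce
      have := hs.smul 0 0 y
      rw [zero_smul, zero_smul] at this
      rw [htop x hx, this, inner_zero_right]
    · intro x
      beta_reduce
      refine ⟨by rw [real_inner_self_eq_norm_sq]; positivity, ?_⟩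
      have h1 : ∑ k, inner ℝ (f k) (β x x) ^ 2 = ‖β x x‖ ^ 2 := by
        rw [← real_inner_self_eq_norm_sq, ← hpar (β x x) (β x x)]
        exact Finset.sum_congr rfl fun k _ => sq _
      rw [h1, mul_pow, Real.sq_sqrt (by linarith), real_inner_self_eq_norm_sq, ← pow_mul]
      exact hβ x
    · intro x y z w
      beta_reduce
      rw [Finset.sum_sub_distrib, hpar, hpar]
      unfold gaussT unitT
      have h2 : Real.sqrt (c - δ) * Real.sqrt (c - δ) = c - δ := Real.mul_self_sqrt (by linarith)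
      linear_combination (inner ℝ x z * inner ℝ y w - inner ℝ x w * inner ℝ y z) * h2
  · intro a b c' d
    simp only [Finset.univ_unique, Finset.sum_singleton, Finset.univ_eq_empty, Finset.sum_empty,
      gaussT]
    ring

end classes

end Pool.Agent.N565.LZ
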