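import Pool.Agent.N565.LZ.Mean
import Pool.Agent.Y489.SM.Fa
import Pool.Agent.W688.HD.BAS

/-!
# Curvature tensors of causal second fundamental forms in Lorentzian space
-/

set_option autoImplicit false

namespace Pool.Agent.N565.LZ

open Finset Pool.Agent.W666.GB
open Pool.Agent.Y489.SM (bil bil_apply exists_diag)
open Pool.Agent.W688.HD (GG GG_eq GG_symm MM)

section

variable {m : ℕ} {V W : Type} [NormedAddCommGroup V] [InnerProductSpace ℝ V]
  [NormedAddCommGroup W] [InnerProductSpace ℝ W]

/-- The tensor of the Gauss equation of the symmetric bilinear form `(b, β)` with values in the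
Lorentzian space `ℝ ⊕ W` (the first summand is negative definite). -/
noncomputable def lgauss (b : V →ₗ[ℝ] V →ₗ[ℝ] ℝ) (β : V →ₗ[ℝ] V →ₗ[ℝ] W) (x y z w : V) : ℝ :=
  inner ℝ (β x z) (β y w) - inner ℝ (β x w) (β y z) - (b x z * b y w - b x w * b y z)

theorem lgauss_curv {b : V →ₗ[ℝ] V →ₗ[ℝ] ℝ} {β : V →ₗ[ℝ] V →ₗ[ℝ] W}
    (hb : ∀ x y, b x y = b y x) (hs : ∀ x y, β x y = β y x) : AlgCurv (lgauss b β) where
  add x x' y z w := by
    simp only [lgauss, map_add, LinearMap.add_apply, inner_add_left]
    ring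
  smul t x y z w := by
    simp only [lgauss, map_smul, LinearMap.smul_apply, inner_smul_left, conj_trivial, smul_eq_mul]
    ring
  anti x y z w := by
    simp only [lgauss]
    rw [real_inner_comm (β x z) (β y w), real_inner_comm (β x w) (β y z)]
    ring
  pair x y z w := by
    simp only [lgauss]
    rw [hs z x, hs w y, hs z y, hs w x, real_inner_comm (β y z) (β x w), hb z x, hb w y, hb z y,
      hb w x]
    ring
  bianchi x y z w := by
    simp only [lgauss]
    rw [hs y x, hs z x, hs z y, real_inner_comm (β z w) (β x y), real_inner_comm (β y w) (β x z),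
      real_inner_comm (β x w) (β y z), hb y x, hb z x, hb z y]
    ring

theorem GG_family {R : V → V → V → V → ℝ} (h : AlgCurv R)
    (e : OrthonormalBasis (Fin m × Bool) ℝ V) (u v : Fin m × Bool → V) :
    GG R u v = GG R e v * e.toBasis.det u := by
  rw [GG_eq h, GG_eq h]
  have h1 := AlternatingMap.eq_smul_basis_det e.toBasis (MultilinearMap.alternatization (MM h v))
  have h2 := congrArg (fun f : V [⋀^(Fin m × Bool)]→ₗ[ℝ] ℝ => f u) h1
  simp only [AlternatingMap.smul_apply, smul_eq_mul, OrthonormalBasis.coe_toBasis] at h2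
  exact h2

theorem GG_sq {R : V → V → V → V → ℝ} (h : AlgCurv R)
    (e : OrthonormalBasis (Fin m × Bool) ℝ V) (u : Fin m × Bool → V) :
    GG R u u = GG R e e * (e.toBasis.det u) ^ 2 := by
  rw [GG_family h e u u, GG_symm h, GG_family h e u e]
  ring

theorem gbc_GG (e : OrthonormalBasis (Fin m × Bool) ℝ V) (R : V → V → V → V → ℝ) :
    gbc e R = 1 / ((8 * Real.pi) ^ m * m.factorial) * GG R e e := rfl

/-- the Lorentz boost -/
theorem boost (p v v' : W) (u a a' : ℝ) (hu : u ^ 2 = 1 + ‖p‖ ^ 2) (hu0 : 0 < u) :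
    inner ℝ (v - ((a + (u * a - inner ℝ p v)) / (1 + u)) • p)
        (v' - ((a' + (u * a' - inner ℝ p v')) / (1 + u)) • p) -
      (u * a - inner ℝ p v) * (u * a' - inner ℝ p v') = inner ℝ v v' - a * a' := by
  have h1 : (1 + u) ≠ 0 := by positivity
  have h2 : inner ℝ p p = u ^ 2 - 1 := by rw [real_inner_self_eq_norm_sq]; linarith
  rw [inner_sub_left, inner_sub_right, inner_sub_right, inner_smul_left, inner_smul_left,
    inner_smul_right, inner_smul_right, h2, real_inner_comm p v]
  simp only [conj_trivial]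
  set s := inner ℝ p v
  set s' := inner ℝ p v'
  field_simp
  ring

/-- a Parseval family -/
theorem exists_parseval [FiniteDimensional ℝ W] {n : ℕ} (hn : Module.finrank ℝ W ≤ n) :
    ∃ g : Fin n → W, ∀ u v : W, inner ℝ u v = ∑ k, inner ℝ (g k) u * inner ℝ (g k) v := by
  set N := Module.finrank ℝ W with hN
  set f := stdOrthonormalBasis ℝ W with hf
  refine ⟨fun k => if h : k.val < N then f ⟨k.val, h⟩ else 0, fun u v => ?_⟩
  set G : ℕ → ℝ := fun k => if h : k < N then inner ℝ (f ⟨k, h⟩) u * inner ℝ (f ⟨k, h⟩) v else 0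
    with hG
  have h1 : ∀ k : Fin n, inner ℝ (if h : k.val < N then f ⟨k.val, h⟩ else 0) u *
      inner ℝ (if h : k.val < N then f ⟨k.val, h⟩ else 0) v = G k.val := by
    intro k
    simp only [hG]
    by_cases h : k.val < N
    · simp only [h, dite_true]
    · simp only [h, dite_false, inner_zero_left, mul_zero]
  simp only [h1]
  rw [Fin.sum_univ_eq_sum_range G n, ← f.sum_inner_mul_inner u v]
  have h2 : ∑ i : Fin N, inner ℝ u (f i) * inner ℝ (f i) v = ∑ i : Fin N, G i.val := by
    refine Finset.sum_congr rfl fun i _ => ?_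
    simp only [hG, i.2, dite_true]
    rw [real_inner_comm u (f i)]
  rw [h2, Fin.sum_univ_eq_sum_range G N]
  refine Finset.sum_subset (Finset.range_mono hn) fun k _ hk => ?_
  simp only [Finset.mem_range] at hk
  simp only [hG, hk, dite_false]

/-- **The sign from a balanced frame.** -/
theorem sign_of_balanced [FiniteDimensional ℝ W] {r : ℕ} (hN : Module.finrank ℝ W ≤ 2 * r + 1)
    (hG : GoodB m r) (e : OrthonormalBasis (Fin m × Bool) ℝ V) {b : V →ₗ[ℝ] V →ₗ[ℝ] ℝ}
    {β : V →ₗ[ℝ] V →ₗ[ℝ] W} (hb : ∀ x y, b x y = b y x) (hs : ∀ x y, β x y = β y x)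
    (hc : ∀ x, ‖β x x‖ ≤ b x x) (v : Module.Basis (Fin m × Bool) ℝ V) (p : W) (u : ℝ)
    (hu : u ^ 2 = 1 + ‖p‖ ^ 2) (hu0 : 0 < u)
    (hI : ∀ i j, u * b (v i) (v j) - inner ℝ p (β (v i) (v j)) = if i = j then 1 else 0)
    (hT : u • ∑ i, β (v i) (v i) = (∑ i, b (v i) (v i)) • p) :
    0 ≤ (-1) ^ m * gbc e (lgauss b β) := by
  have hπ := Real.pi_pos
  obtain ⟨g, hg⟩ := exists_parseval (W := W) hN
  have h1u : (1 + u) ≠ 0 := by positivity
  set β2 : Fin m × Bool → Fin m × Bool → W := fun i j => β (v i) (v j) -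
    ((b (v i) (v j) + (u * b (v i) (v j) - inner ℝ p (β (v i) (v j)))) / (1 + u)) • p with hβ2
  set B : Fin (2 * r + 1) → Fin m × Bool → Fin m × Bool → ℝ := fun k i j =>
    inner ℝ (g k) (β2 i j) with hB
  -- the trace
  set n : ℝ := (Fintype.card (Fin m × Bool) : ℝ) with hn
  set P : ℝ := ∑ i, b (v i) (v i) with hP
  set Q : W := ∑ i, β (v i) (v i) with hQ
  have hPn : P = n * u := by
    have e1 : u * P - inner ℝ p Q = n := by
      have : ∑ i, (u * b (v i) (v i) - inner ℝ p (β (v i) (v i))) = n := by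
        simp only [hI, if_true]
        simp [hn]
      rw [Finset.sum_sub_distrib, ← Finset.mul_sum, ← inner_sum] at this
      exact this
    have e2 : u * inner ℝ p Q = P * ‖p‖ ^ 2 := by
      have := congrArg (fun w => inner ℝ p w) hT
      simp only [inner_smul_right, real_inner_self_eq_norm_sq] at this
      exact this
    have e3 : u * n = P := by
      rw [← e1, mul_sub, e2]
      have : ‖p‖ ^ 2 = u ^ 2 - 1 := by linarith
      rw [this]
      ring
    rw [← e3]
    ring
  have hQn : Q = n • p := by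
    have e1 : u • Q = u • (n • p) := by
      rw [hT, hPn, smul_smul, mul_comm]
    exact smul_right_injective W hu0.ne' e1
  have htr : ∑ i, β2 i i = 0 := by
    simp only [hβ2]
    rw [Finset.sum_sub_distrib, ← Finset.sum_smul, ← Finset.sum_div]
    simp only [hI, if_true, Finset.sum_add_distrib]
    rw [← hQ, ← hP, hQn, hPn]
    have e1 : (n * u + ∑ _i : Fin m × Bool, (1 : ℝ)) / (1 + u) = n := by
      rw [Finset.sum_const, Finset.card_univ, nsmul_eq_mul, mul_one, ← hn]
      field_simp
      ring
    rw [e1, sub_self]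
  -- the bound
  have hbd : ∀ x : Fin m × Bool → ℝ, ‖∑ i, ∑ j, (x i * x j) • β2 i j‖ ≤ ∑ i, x i ^ 2 := by
    intro x
    set X : V := ∑ i, x i • v i with hX
    have e1 : ∑ i, ∑ j, (x i * x j) • β (v i) (v j) = β X X := by
      simp only [hX, map_sum, LinearMap.sum_apply, map_smul, LinearMap.smul_apply]
      rw [Finset.sum_comm]
      refine Finset.sum_congr rfl fun i _ => ?_
      rw [Finset.smul_sum]
      refine Finset.sum_congr rfl fun j _ => ?_
      rw [smul_smul, mul_comm]
    have e2 : ∑ i, ∑ j, (x i * x j) * b (v i) (v j) = b X X := by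
      simp only [hX, map_sum, LinearMap.sum_apply, map_smul, LinearMap.smul_apply, smul_eq_mul]
      rw [Finset.sum_comm]
      refine Finset.sum_congr rfl fun i _ => ?_
      rw [Finset.mul_sum]
      exact Finset.sum_congr rfl fun j _ => by ring
    have e3 : u * b X X - inner ℝ p (β X X) = ∑ i, x i ^ 2 := by
      rw [← e1, ← e2]
      simp only [inner_sum, inner_smul_right, Finset.mul_sum]
      rw [← Finset.sum_sub_distrib]
      have : ∀ i, ∑ j, u * (x i * x j * b (v i) (v j)) -
          ∑ j, x i * x j * inner ℝ p (β (v i) (v j)) = x i ^ 2 := by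
        intro i
        rw [← Finset.sum_sub_distrib]
        have : ∀ j, u * (x i * x j * b (v i) (v j)) - x i * x j * inner ℝ p (β (v i) (v j)) =
            if i = j then x i * x j else 0 := by
          intro j
          have := hI i j
          have e : u * (x i * x j * b (v i) (v j)) - x i * x j * inner ℝ p (β (v i) (v j)) =
            x i * x j * (u * b (v i) (v j) - inner ℝ p (β (v i) (v j))) := by ring
          rw [e, this]
          split_ifs <;> ring
        simp only [this]
        rw [Finset.sum_ite_eq]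
        simp [sq]
      exact Finset.sum_congr rfl fun i _ => this i
    have e4 : ∑ i, ∑ j, (x i * x j) • β2 i j =
        β X X - ((b X X + (u * b X X - inner ℝ p (β X X))) / (1 + u)) • p := by
      rw [← e1, ← e2]
      simp only [hβ2, smul_sub, Finset.sum_sub_distrib]
      congr 1
      simp only [smul_smul, inner_sum, inner_smul_right, Finset.mul_sum]
      rw [← Finset.sum_sub_distrib, ← Finset.sum_add_distrib, Finset.sum_div, Finset.sum_smul]
      refine Finset.sum_congr rfl fun i _ => ?_
      rw [← Finset.sum_sub_distrib, ← Finset.sum_add_distrib, Finset.sum_div, Finset.sum_smul]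
      refine Finset.sum_congr rfl fun j _ => ?_
      congr 1
      ring
    have e5 := boost p (β X X) (β X X) u (b X X) (b X X) hu hu0
    rw [← e4, e3, real_inner_self_eq_norm_sq, real_inner_self_eq_norm_sq] at e5
    have e6 := hc X
    have e7 : 0 ≤ ∑ i, x i ^ 2 := Finset.sum_nonneg fun i _ => sq_nonneg _
    have e8 : ‖β X X‖ ^ 2 ≤ b X X * b X X := by
      rw [sq]
      exact mul_self_le_mul_self (norm_nonneg _) e6
    refine abs_le_of_sq_le_sq' ?_ e7 |>.2
    nlinarith
  have key := mean_nonneg (m := m) r (K := Fin (2 * r + 1)) (Fintype.card_fin _) hG B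
    (fun k i j => by
      simp only [hB, hβ2]
      rw [hs (v i) (v j), hb (v i) (v j)])
    (fun k => by
      simp only [hB]
      rw [← inner_sum, htr, inner_zero_right])
    (fun ζ x => by
      have e1 : ∑ i, ∑ j, x i * (∑ k, ζ k * B k i j) * x j =
          ∑ k, ζ k * inner ℝ (g k) (∑ i, ∑ j, (x i * x j) • β2 i j) := by
        simp only [hB, inner_sum, inner_smul_right, Finset.mul_sum, Finset.sum_mul]
        conv_rhs => rw [Finset.sum_comm]
        refine Finset.sum_congr rfl fun i _ => ?_
        conv_rhs => rw [Finset.sum_comm]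
        refine Finset.sum_congr rfl fun j _ => ?_
        refine Finset.sum_congr rfl fun k _ => ?_
        ring
      set w := ∑ i, ∑ j, (x i * x j) • β2 i j with hw
      have e2 := Finset.sum_mul_sq_le_sq_mul_sq univ ζ (fun k => inner ℝ (g k) w)
      have e3 : ∑ k, (inner ℝ (g k) w) ^ 2 = ‖w‖ ^ 2 := by
        rw [← real_inner_self_eq_norm_sq, hg w w]
        exact Finset.sum_congr rfl fun k _ => sq _
      rw [e3] at e2
      have e4 : 0 ≤ ∑ k, ζ k ^ 2 := Finset.sum_nonneg fun i _ => sq_nonneg _
      rw [e1]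
      have e5 : |∑ k, ζ k * inner ℝ (g k) w| ≤ Real.sqrt (∑ k, ζ k ^ 2) * ‖w‖ := by
        refine abs_le_of_sq_le_sq ?_ (by positivity)
        rw [mul_pow, Real.sq_sqrt e4]
        exact e2
      exact e5.trans (mul_le_mul_of_nonneg_left (hbd x) (Real.sqrt_nonneg _)))
  -- the components
  have hcomp : ∀ i j k l, lgauss b β (v i) (v j) (v k) (v l) =
      (∑ o : Option (Fin (2 * r + 1)), ew o * (ext B o i k * ext B o j l)) -
        ∑ o : Option (Fin (2 * r + 1)), ew o * (ext B o i l * ext B o j k) := by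
    intro i j k l
    have e1 : ∀ i j k l : Fin m × Bool,
        ∑ o : Option (Fin (2 * r + 1)), ew o * (ext B o i k * ext B o j l) =
        inner ℝ (β (v i) (v k)) (β (v j) (v l)) - b (v i) (v k) * b (v j) (v l) := by
      intro i j k l
      rw [Fintype.sum_option]
      simp only [ew, ext, Option.elim_none, Option.elim_some, one_mul, hB]
      rw [← hg (β2 i k) (β2 j l), ← hI i k, ← hI j l]
      have := boost p (β (v i) (v k)) (β (v j) (v l)) u (b (v i) (v k)) (b (v j) (v l)) hu hu0
      rw [← this]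
      ring
    rw [e1 i j k l, e1 i j l k]
    unfold lgauss
    ring
  have h3 := lift_sum (B := Fin m) (fun a b' c' d => ∑ o : Option (Fin (2 * r + 1)),
    ew o * (ext B o a b' * ext B o c' d)) (fun i j k l => lgauss b β (v i) (v j) (v k) (v l)) hcomp
  rw [Fintype.card_fin] at h3
  have h4 : GG (lgauss b β) v v = 2 ^ m * Yf (fun a b' c' d =>
      ∑ o : Option (Fin (2 * r + 1)), ew o * (ext B o a b' * ext B o c' d)) := h3
  have h5 : 0 ≤ (-1 : ℝ) ^ m * GG (lgauss b β) v v := by
    rw [h4]
    have : (0 : ℝ) < 2 ^ m := by positivity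
    nlinarith [mul_nonneg this.le key]
  rw [GG_sq (lgauss_curv hb hs) e v] at h5
  have h6 : e.toBasis.det v ≠ 0 := (e.toBasis.isUnit_det v).ne_zero
  have h7 : 0 < (e.toBasis.det v) ^ 2 := by positivity
  have h8 : 0 ≤ (-1 : ℝ) ^ m * GG (lgauss b β) e e := by
    by_contra hcon
    push Not at hcon
    nlinarith
  rw [gbc_GG]
  have h9 : (0 : ℝ) < 1 / ((8 * Real.pi) ^ m * m.factorial) := by positivity
  nlinarith [mul_nonneg h9.le h8]

end

end Pool.Agent.N565.LZ
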