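import Pool.Agent.N565.LZ.Coin

/-!
# The minimum of the mean over spectra with sum zero is attained at a binomial spectrum
-/

set_option autoImplicit false

namespace Pool.Agent.N565.LZ

open MvPolynomial Finset

variable {J : Type} [Fintype J] [DecidableEq J]

/-- the linear factor -/
noncomputable def lfac (t : ℝ) : P2 := X 0 + C (Complex.I * t) * X 1

/-- the mean of the product of the linear factors -/
noncomputable def HH (r : ℕ) (lam : J → ℝ) : ℂ := EE (X 1 ^ (2 * r) * ∏ j, lfac (lam j))

theorem lfac_mul (s t : ℝ) : lfac s * lfac t =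
    X 0 ^ 2 + C (Complex.I * (s + t : ℝ)) * (X 0 * X 1) - C ((s * t : ℝ) : ℂ) * X 1 ^ 2 := by
  unfold lfac
  have h := CI_sq
  simp only [C_mul, Complex.ofReal_add, Complex.ofReal_mul, C_add]
  linear_combination (C (s : ℂ) * C (t : ℂ) * X 1 ^ 2) * h

omit [Fintype J] in
theorem HH_two [Fintype J] (r : ℕ) (lam : J → ℝ) {i j : J} (hij : i ≠ j) : ∃ c : ℝ, ∀ s t : ℝ,
    s + t = lam i + lam j →
    (HH r (Function.update (Function.update lam i s) j t)).re =
      (HH r lam).re - (s * t - lam i * lam j) * c := by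
  set Q : P2 := ∏ k ∈ (univ.erase i).erase j, lfac (lam k) with hQ
  have hprod : ∀ f : J → ℝ, (∀ k, k ≠ i → k ≠ j → f k = lam k) →
      ∏ k, lfac (f k) = lfac (f i) * lfac (f j) * Q := by
    intro f hf
    rw [← Finset.mul_prod_erase univ (fun k => lfac (f k)) (Finset.mem_univ i),
      ← Finset.mul_prod_erase (univ.erase i) (fun k => lfac (f k))
        (Finset.mem_erase.2 ⟨hij.symm, Finset.mem_univ j⟩), ← mul_assoc]
    congr 1
    refine Finset.prod_congr rfl fun k hk => ?_
    have hk1 := (Finset.mem_erase.1 hk).1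
    have hk2 := (Finset.mem_erase.1 (Finset.mem_erase.1 hk).2).1
    rw [hf k hk2 hk1]
  refine ⟨(EE (X 1 ^ (2 * r) * (X 1 ^ 2 * Q))).re, fun s t hst => ?_⟩
  have h1 := hprod lam fun _ _ _ => rfl
  have h2 := hprod (Function.update (Function.update lam i s) j t) fun k hk1 hk2 => by
    rw [Function.update_of_ne hk2, Function.update_of_ne hk1]
  have h3 : Function.update (Function.update lam i s) j t i = s := by
    rw [Function.update_of_ne hij, Function.update_self]
  have h4 : Function.update (Function.update lam i s) j t j = t := Function.update_self _ _ _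
  rw [h3, h4] at h2
  have h5 : X 1 ^ (2 * r) * (lfac s * lfac t * Q) = X 1 ^ (2 * r) * (lfac (lam i) * lfac (lam j) * Q)
      - ((s * t - lam i * lam j : ℝ) : ℂ) • (X 1 ^ (2 * r) * (X 1 ^ 2 * Q)) := by
    rw [lfac_mul, lfac_mul, hst, MvPolynomial.smul_eq_C_mul, Complex.ofReal_sub, C_sub]
    ring
  unfold HH
  rw [h1, h2, h5, map_sub, map_smul, Complex.sub_re, smul_eq_mul, Complex.re_ofReal_mul]

theorem HH_cont (r : ℕ) : Continuous fun lam : J → ℝ => (HH r lam).re := by
  refine Complex.continuous_re.comp ?_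
  have h : ∀ lam : J → ℝ, HH r lam = ∑ S ∈ (univ : Finset J).powerset,
      (∏ j ∈ univ \ S, (Complex.I * (lam j : ℂ))) *
        EE (X 1 ^ (2 * r) * (X 0 ^ S.card * X 1 ^ (univ \ S).card)) := by
    intro lam
    unfold HH lfac
    rw [Finset.prod_add, Finset.mul_sum, map_sum]
    refine Finset.sum_congr rfl fun S _ => ?_
    rw [Finset.prod_const, Finset.prod_mul_distrib, Finset.prod_const]
    have h1 : ∏ x ∈ univ \ S, (C (Complex.I * (lam x : ℂ)) : P2) =
        C (∏ x ∈ univ \ S, (Complex.I * (lam x : ℂ))) := by rw [map_prod]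
    rw [h1, ← smul_eq_mul (∏ x ∈ univ \ S, (Complex.I * (lam x : ℂ))), ← map_smul,
      MvPolynomial.smul_eq_C_mul]
    congr 1
    ring
  refine (continuous_congr h).2 ?_
  fun_prop

/-- the spectra -/
def KK (J : Type) [Fintype J] : Set (J → ℝ) := {lam | (∀ j, |lam j| ≤ 1) ∧ ∑ j, lam j = 0}

omit [DecidableEq J] in
theorem KK_compact : IsCompact (KK J) := by
  have h1 : KK J = Set.pi Set.univ (fun _ : J => Set.Icc (-1 : ℝ) 1) ∩ {lam | ∑ j, lam j = 0} := by
    ext lam
    simp only [KK, Set.mem_ofPred_eq, Set.mem_inter_iff, Set.mem_pi, Set.mem_univ, true_implies,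
      Set.mem_Icc, abs_le]
  rw [h1]
  refine (isCompact_univ_pi fun _ => isCompact_Icc).inter_right ?_
  exact isClosed_eq (by fun_prop) continuous_const

theorem exists_ext (r : ℕ) : ∃ lam : J → ℝ, lam ∈ KK J ∧
    (∀ lam' ∈ KK J, (HH r lam).re ≤ (HH r lam').re) ∧
    ∀ i j, |lam i| < 1 → |lam j| < 1 → lam i = lam j := by
  have hne : (KK J).Nonempty := ⟨0, by simp [KK]⟩
  obtain ⟨l0, hl0, hmin⟩ := KK_compact.exists_isMinOn hne (HH_cont (J := J) r).continuousOn
  set K' : Set (J → ℝ) := KK J ∩ {lam | (HH r lam).re = (HH r l0).re} with hK'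
  have hc' : IsCompact K' := KK_compact.inter_right (isClosed_eq (HH_cont r) continuous_const)
  obtain ⟨lam, hlam, hmax⟩ := hc'.exists_isMaxOn ⟨l0, hl0, rfl⟩
    (f := fun lam => ∑ j, lam j ^ 2) (by fun_prop)
  have hmin' : ∀ lam' ∈ KK J, (HH r lam).re ≤ (HH r lam').re := by
    intro lam' h'
    rw [hlam.2]
    exact hmin h'
  refine ⟨lam, hlam.1, hmin', ?_⟩
  intro i j hi hj
  by_contra hne'
  have hij : i ≠ j := fun h => hne' (by rw [h])
  obtain ⟨c, hc⟩ := HH_two r lam hij
  -- moving within the set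
  have hmem : ∀ s t : ℝ, s + t = lam i + lam j → |s| ≤ 1 → |t| ≤ 1 →
      Function.update (Function.update lam i s) j t ∈ KK J := by
    intro s t hst hs ht
    refine ⟨fun k => ?_, ?_⟩
    · by_cases hk : k = j
      · rw [hk, Function.update_self]; exact ht
      · rw [Function.update_of_ne hk]
        by_cases hk2 : k = i
        · rw [hk2, Function.update_self]; exact hs
        · rw [Function.update_of_ne hk2]; exact hlam.1.1 k
    · have h1 := hlam.1.2
      rw [← Finset.add_sum_erase univ _ (Finset.mem_univ i),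
        ← Finset.add_sum_erase (univ.erase i) _
          (Finset.mem_erase.2 ⟨hij.symm, Finset.mem_univ j⟩)] at h1 ⊢
      rw [Function.update_of_ne hij, Function.update_self, Function.update_self]
      have h2 : ∑ x ∈ (univ.erase i).erase j,
          Function.update (Function.update lam i s) j t x = ∑ x ∈ (univ.erase i).erase j, lam x := by
        refine Finset.sum_congr rfl fun k hk => ?_
        have hk1 := (Finset.mem_erase.1 hk).1
        have hk2 := (Finset.mem_erase.1 (Finset.mem_erase.1 hk).2).1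
        rw [Function.update_of_ne hk1, Function.update_of_ne hk2]
      rw [h2]
      linarith
  have hsq : ∀ s t : ℝ, ∑ k, (Function.update (Function.update lam i s) j t) k ^ 2 =
      ∑ k, lam k ^ 2 + (s ^ 2 + t ^ 2 - lam i ^ 2 - lam j ^ 2) := by
    intro s t
    rw [← Finset.add_sum_erase univ (fun k => lam k ^ 2) (Finset.mem_univ i),
      ← Finset.add_sum_erase (univ.erase i) (fun k => lam k ^ 2)
        (Finset.mem_erase.2 ⟨hij.symm, Finset.mem_univ j⟩),
      ← Finset.add_sum_erase univ _ (Finset.mem_univ i),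
      ← Finset.add_sum_erase (univ.erase i) _
        (Finset.mem_erase.2 ⟨hij.symm, Finset.mem_univ j⟩)]
    rw [Function.update_of_ne hij, Function.update_self, Function.update_self]
    have h2 : ∑ x ∈ (univ.erase i).erase j,
        Function.update (Function.update lam i s) j t x ^ 2 =
        ∑ x ∈ (univ.erase i).erase j, lam x ^ 2 := by
      refine Finset.sum_congr rfl fun k hk => ?_
      have hk1 := (Finset.mem_erase.1 hk).1
      have hk2 := (Finset.mem_erase.1 (Finset.mem_erase.1 hk).2).1
      rw [Function.update_of_ne hk1, Function.update_of_ne hk2]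
    rw [h2]
    ring
  -- a small step
  obtain ⟨ε, hε, h1, h2⟩ : ∃ ε : ℝ, 0 < ε ∧ |lam i| + ε ≤ 1 ∧ |lam j| + ε ≤ 1 :=
    ⟨min (1 - |lam i|) (1 - |lam j|), lt_min (by linarith) (by linarith),
      by linarith [min_le_left (1 - |lam i|) (1 - |lam j|)],
      by linarith [min_le_right (1 - |lam i|) (1 - |lam j|)]⟩
  have hstep : ∀ u : ℝ, |u| ≤ ε → 0 ≤ -(((lam i + u) * (lam j - u) - lam i * lam j) * c) := by
    intro u hu
    have h3 := hmin' _ (hmem (lam i + u) (lam j - u) (by ring)
      ((abs_add_le _ _).trans (by linarith)) ((abs_sub _ _).trans (by linarith)))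
    rw [hc _ _ (by ring)] at h3
    linarith
  set d : ℝ := lam j - lam i with hd
  have hd0 : d ≠ 0 := by
    rw [hd]
    intro h
    exact hne' (by linarith)
  have hval : ∀ u : ℝ, (lam i + u) * (lam j - u) - lam i * lam j = u * d - u ^ 2 := by
    intro u
    rw [hd]; ring
  -- step of sign of `d` and of the opposite sign
  obtain ⟨v, hv0, hv1, hv2⟩ : ∃ v : ℝ, 0 < v ∧ v ≤ ε ∧ v < |d| :=
    ⟨min ε (|d| / 2), lt_min hε (by positivity), min_le_left _ _,
      lt_of_le_of_lt (min_le_right _ _) (by have := abs_pos.2 hd0; linarith)⟩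
  have hc0 : c = 0 := by
    have e1 := hstep v (by rw [abs_of_pos hv0]; exact hv1)
    have e2 := hstep (-v) (by rw [abs_neg, abs_of_pos hv0]; exact hv1)
    rw [hval] at e1 e2
    rcases lt_or_gt_of_ne hd0 with hneg | hpos
    · rw [abs_of_neg hneg] at hv2
      have p1 : v * d - v ^ 2 < 0 := by nlinarith
      have p2 : 0 < -v * d - (-v) ^ 2 := by nlinarith
      nlinarith
    · rw [abs_of_pos hpos] at hv2
      have p1 : 0 < v * d - v ^ 2 := by nlinarith
      have p2 : -v * d - (-v) ^ 2 < 0 := by nlinarith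
      nlinarith
  -- spreading
  set u : ℝ := if 0 < d then -v else v with hu
  have hu1 : |u| ≤ ε := by
    rw [hu]
    split_ifs
    · rw [abs_neg, abs_of_pos hv0]; exact hv1
    · rw [abs_of_pos hv0]; exact hv1
  have hu2 : u * d - u ^ 2 < 0 := by
    rw [hu]
    split_ifs with hpos
    · nlinarith
    · have : d < 0 := lt_of_le_of_ne (not_lt.1 hpos) hd0
      nlinarith
  have h6 : Function.update (Function.update lam i (lam i + u)) j (lam j - u) ∈ K' := by
    refine ⟨hmem _ _ (by ring) ((abs_add_le _ _).trans (by linarith))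
      ((abs_sub _ _).trans (by linarith)), ?_⟩
    change (HH r _).re = _
    rw [hc _ _ (by ring), hc0, mul_zero, sub_zero]
    exact hlam.2
  have h7 := hmax h6
  simp only [Set.mem_ofPred_eq] at h7
  rw [hsq] at h7
  have h8 : (lam i + u) ^ 2 + (lam j - u) ^ 2 - lam i ^ 2 - lam j ^ 2 = -2 * (u * d - u ^ 2) := by
    rw [hd]; ring
  rw [h8] at h7
  linarith

end Pool.Agent.N565.LZ
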