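import Pool.Agent.N565.LZ.Cond
import Pool.Agent.Y489.SM.Md

/-!
# The double alternating form of `∑ B_k ⊗ B_k - 1 ⊗ 1` for traceless matrices
-/

set_option autoImplicit false

namespace Pool.Agent.N565.LZ

open MvPolynomial Finset MeasureTheory
open Pool.Agent.W666.GB (sn sn_mul sn_inv sn_mul_self MD Yf)
open Pool.Agent.Y489.SM (mu mu_zero_pos mu_succ mu_one mu_add_two wt cnt wick FF Sy LW LW_pairs
  FF_sy Yf_sum integrable_pow_wt)

theorem mu_odd (k : ℕ) : mu (2 * k + 1) = 0 := by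
  induction k with
  | zero => simpa using mu_one
  | succ k ih =>
    have : 2 * (k + 1) + 1 = (2 * k + 1) + 2 := by ring
    rw [this, mu_add_two, ih, mul_zero]

theorem mu_step (d a : ℕ) : mu (d + 2 * a) = (∏ j ∈ range a, ((d + 2 * j + 1 : ℕ) : ℝ)) * mu d := by
  induction a with
  | zero => simp
  | succ a ih =>
    have : d + 2 * (a + 1) = (d + 2 * a) + 2 := by ring
    rw [this, mu_add_two, ih, Finset.prod_range_succ]
    push_cast
    ring

section mom

variable {K : Type} [Fintype K] [DecidableEq K]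

theorem prod_single (ζ : K → ℝ) (e : K → ℕ) (k : K) :
    ∏ l, ζ l ^ (e + Pi.single k 2 : K → ℕ) l = ζ k ^ 2 * ∏ l, ζ l ^ e l := by
  simp only [Pi.add_apply, pow_add, Finset.prod_mul_distrib]
  rw [mul_comm]
  congr 1
  rw [Finset.prod_eq_single k]
  · rw [Pi.single_eq_same]
  · intro l _ hl
    rw [Pi.single_eq_of_ne hl, pow_zero]
  · intro h; exact absurd (Finset.mem_univ _) h

theorem prod_mu_single (e : K → ℕ) (k : K) :
    ∏ l, mu ((e + Pi.single k 2 : K → ℕ) l) = (e k + 1) * ∏ l, mu (e l) := by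
  rw [← Finset.mul_prod_erase univ _ (Finset.mem_univ k),
    ← Finset.mul_prod_erase univ (fun l => mu (e l)) (Finset.mem_univ k), Pi.add_apply,
    Pi.single_eq_same, mu_add_two, ← mul_assoc]
  congr 1
  refine Finset.prod_congr rfl fun l hl => ?_
  rw [Pi.add_apply, Pi.single_eq_of_ne (Finset.mem_erase.1 hl).1, add_zero]

theorem mom_split (a : ℕ) (e : K → ℕ) (ζ : K → ℝ) :
    (∑ k, ζ k ^ 2) ^ (a + 1) * (∏ k, ζ k ^ e k) * ∏ k, wt (ζ k) =
      ∑ k, (∑ k, ζ k ^ 2) ^ a * (∏ l, ζ l ^ (e + Pi.single k 2 : K → ℕ) l) * ∏ k, wt (ζ k) := by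
  have h : ∀ k, (∑ k, ζ k ^ 2) ^ a * (∏ l, ζ l ^ (e + Pi.single k 2 : K → ℕ) l) *
      ∏ k, wt (ζ k) = ζ k ^ 2 * ((∑ k, ζ k ^ 2) ^ a * (∏ l, ζ l ^ e l) * ∏ k, wt (ζ k)) := by
    intro k
    rw [prod_single]
    ring
  simp only [h]
  rw [← Finset.sum_mul, pow_succ]
  ring

theorem mom_integrable (a : ℕ) (e : K → ℕ) :
    Integrable fun ζ : K → ℝ => (∑ k, ζ k ^ 2) ^ a * (∏ k, ζ k ^ e k) * ∏ k, wt (ζ k) := by
  induction a generalizing e with
  | zero =>
    simp only [pow_zero, one_mul, ← Finset.prod_mul_distrib]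
    exact Integrable.fintype_prod (f := fun k (x : ℝ) => x ^ e k * wt x)
      (fun k => integrable_pow_wt (e k))
  | succ a ih =>
    simp only [mom_split]
    exact integrable_finsetSum _ fun k _ => ih _

theorem mom_eq (a : ℕ) (e : K → ℕ) :
    ∫ ζ : K → ℝ, (∑ k, ζ k ^ 2) ^ a * (∏ k, ζ k ^ e k) * ∏ k, wt (ζ k) =
      (∏ j ∈ range a, ((Fintype.card K + (∑ k, e k) + 2 * j : ℕ) : ℝ)) * ∏ k, mu (e k) := by
  induction a generalizing e with
  | zero =>
    simp only [pow_zero, one_mul, ← Finset.prod_mul_distrib, Finset.range_zero,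
      Finset.prod_empty]
    rw [integral_fintype_prod_volume_eq_prod (fun k (x : ℝ) => x ^ e k * wt x)]
    rfl
  | succ a ih =>
    simp only [mom_split]
    rw [integral_finsetSum _ fun k _ => mom_integrable a _]
    have h1 : ∀ k : K, ∫ ζ : K → ℝ, (∑ k, ζ k ^ 2) ^ a *
        (∏ l, ζ l ^ (e + Pi.single k 2 : K → ℕ) l) * ∏ k, wt (ζ k) =
        ((e k : ℝ) + 1) * ((∏ j ∈ range a,
          ((Fintype.card K + (∑ k, e k) + 2 * (j + 1) : ℕ) : ℝ)) * ∏ k, mu (e k)) := by
      intro k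
      rw [ih, prod_mu_single]
      have h2 : ∑ l, (e + Pi.single k 2 : K → ℕ) l = ∑ l, e l + 2 := by
        simp only [Pi.add_apply, Finset.sum_add_distrib]
        rw [Finset.sum_pi_single']
        simp
      rw [h2]
      have h3 : ∀ j, Fintype.card K + (∑ l, e l + 2) + 2 * j =
          Fintype.card K + (∑ k, e k) + 2 * (j + 1) := by intro j; ring
      simp only [h3]
      ring
    simp only [h1]
    rw [← Finset.sum_mul, Finset.prod_range_succ']
    have h4 : ∑ k : K, ((e k : ℝ) + 1) = ((Fintype.card K + (∑ k, e k) + 2 * 0 : ℕ) : ℝ) := by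
      rw [Finset.sum_add_distrib]
      push_cast
      simp
      ring
    rw [h4]
    ring

end mom

section det

variable {J : Type} [Fintype J] [DecidableEq J]

/-- the double alternating sum over a commutative ring -/
theorem sum_sign_det {A : Type} [CommRing A] (M : J → J → A) :
    ∑ σ : Equiv.Perm J, ∑ τ : Equiv.Perm J, ((Equiv.Perm.sign σ : ℤ) : A) *
      ((Equiv.Perm.sign τ : ℤ) : A) * ∏ j, M (σ j) (τ j) =
      (Fintype.card J).factorial * Matrix.det (Matrix.of M) := by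
  have h1 : ∀ σ : Equiv.Perm J, ∑ τ : Equiv.Perm J, ((Equiv.Perm.sign σ : ℤ) : A) *
      ((Equiv.Perm.sign τ : ℤ) : A) * ∏ j, M (σ j) (τ j) = Matrix.det (Matrix.of M) := by
    intro σ
    rw [← Matrix.det_transpose, Matrix.det_apply', ← Equiv.sum_comp (Equiv.mulRight σ)]
    refine Finset.sum_congr rfl fun τ _ => ?_
    simp only [Equiv.coe_mulRight, Equiv.Perm.mul_apply, Matrix.transpose_apply,
      Matrix.of_apply, Equiv.Perm.sign_mul]
    rw [Equiv.prod_comp σ (fun i => M i (τ i))]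
    have h2 : ((Equiv.Perm.sign σ : ℤ) : A) * ((Equiv.Perm.sign σ : ℤ) : A) = 1 := by
      rw [← Int.cast_mul, ← Units.val_mul, Int.units_mul_self]
      simp
    push_cast
    linear_combination (((Equiv.Perm.sign τ : ℤ) : A) * ∏ i, M i (τ i)) * h2
  rw [Finset.sum_congr rfl fun σ _ => h1 σ, Finset.sum_const, Finset.card_univ,
    Fintype.card_perm, nsmul_eq_mul]

theorem det_diag (A : Matrix J J ℝ) (hA : A.IsHermitian) (a b : P2) :
    Matrix.det (Matrix.of fun i j => a * (if i = j then 1 else 0) + b * C ((A i j : ℝ) : ℂ)) =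
      ∏ i, (a + b * C ((hA.eigenvalues i : ℝ) : ℂ)) := by
  set φ : ℝ →+* P2 := (C : ℂ →+* P2).comp (algebraMap ℝ ℂ) with hφ
  set U : Matrix J J ℝ := (hA.eigenvectorUnitary : Matrix J J ℝ) with hU
  have h1 : U * star U = 1 := Unitary.coe_mul_star_self _
  have hs : A = U * Matrix.diagonal hA.eigenvalues * star U := by
    have := hA.spectral_theorem
    rw [Unitary.conjStarAlgAut_apply] at this
    exact this
  have h2 : (Matrix.of fun i j => a * (if i = j then 1 else 0) + b * C ((A i j : ℝ) : ℂ)) =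
      U.map φ * (Matrix.diagonal fun i => a + b * C ((hA.eigenvalues i : ℝ) : ℂ)) *
        (star U).map φ := by
    have h3 : (Matrix.diagonal fun i => a + b * C ((hA.eigenvalues i : ℝ) : ℂ)) =
        a • (1 : Matrix J J P2) + b • (Matrix.diagonal hA.eigenvalues).map φ := by
      ext i j : 2
      by_cases hij : i = j
      · subst hij
        simp [hφ]
      · simp [hij]
    have h4 : (U.map φ : Matrix J J P2) * (star U).map φ = 1 := by
      rw [← Matrix.map_mul, h1]
      simp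
    have h5 : U.map φ * (Matrix.diagonal hA.eigenvalues).map φ * (star U).map φ = A.map φ := by
      rw [← Matrix.map_mul, ← Matrix.map_mul, ← hs]
    rw [h3, mul_add, add_mul, Matrix.mul_smul, Matrix.smul_mul, Matrix.mul_one, h4,
      Matrix.mul_smul, Matrix.smul_mul, h5]
    ext i j : 2
    by_cases hij : i = j
    · subst hij
      simp [hφ]
    · simp [hij, hφ]
  rw [h2, Matrix.det_mul, Matrix.det_mul, Matrix.det_diagonal]
  have h6 : Matrix.det (U.map φ : Matrix J J P2) * Matrix.det ((star U).map φ) = 1 := by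
    rw [← Matrix.det_mul, ← Matrix.map_mul, h1]
    simp
  linear_combination (∏ i, (a + b * C ((hA.eigenvalues i : ℝ) : ℂ))) * h6

theorem poly_sum {K : Type} [Fintype K] (y : K → P2) (B : K → J → J → ℝ) :
    ∑ β : J → K, (∏ j, y (β j)) * C ((MD (fun j => B (β j)) : ℝ) : ℂ) =
      ((Fintype.card J).factorial : P2) *
        Matrix.det (Matrix.of fun i j => ∑ k, y k * C ((B k i j : ℝ) : ℂ)) := by
  have h0 := sum_sign_det (fun i j : J => ∑ k, y k * C ((B k i j : ℝ) : ℂ))
  rw [← h0]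
  have h3 : ∀ σ τ : Equiv.Perm J, ((Equiv.Perm.sign σ : ℤ) : P2) *
      ((Equiv.Perm.sign τ : ℤ) : P2) * ∏ j, ∑ k, y k * C ((B k (σ j) (τ j) : ℝ) : ℂ) =
      ∑ β : J → K, (∏ j, y (β j)) *
        C (((sn σ * sn τ * ∏ j, B (β j) (σ j) (τ j) : ℝ)) : ℂ) := by
    intro σ τ
    rw [Fintype.prod_sum, Finset.mul_sum]
    refine Finset.sum_congr rfl fun β _ => ?_
    rw [Finset.prod_mul_distrib]
    have h4 : (C (((sn σ * sn τ * ∏ j, B (β j) (σ j) (τ j) : ℝ)) : ℂ) : P2) =
        ((Equiv.Perm.sign σ : ℤ) : P2) * ((Equiv.Perm.sign τ : ℤ) : P2) *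
          ∏ j, C ((B (β j) (σ j) (τ j) : ℝ) : ℂ) := by
      simp only [sn, Complex.ofReal_mul, Complex.ofReal_prod, C_mul, map_prod]
      simp
    rw [h4]
    ring
  simp only [h3]
  rw [Finset.sum_congr rfl fun σ _ => Finset.sum_comm, Finset.sum_comm]
  refine Finset.sum_congr rfl fun β _ => ?_
  simp only [← Finset.mul_sum]
  congr 1
  unfold MD
  simp only [Complex.ofReal_sum, map_sum]

end det

section point

variable {m : ℕ}

/-- the pointwise sign -/
theorem point_nonneg {r : ℕ} (hG : GoodB m r)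
    (A : Matrix (Fin m × Bool) (Fin m × Bool) ℝ) (hA : A.IsHermitian) (htr : A.trace = 0)
    (ρ : ℝ) (hρ : 0 ≤ ρ)
    (hb : ∀ x : Fin m × Bool → ℝ, |∑ i, ∑ j, x i * A i j * x j| ≤ ρ * ∑ i, x i ^ 2) :
    0 ≤ (-1 : ℝ) ^ m * (EE (X 1 ^ (2 * r) * Matrix.det (Matrix.of fun i j =>
      C ((ρ : ℂ) * Complex.I) * X 0 * (if i = j then 1 else 0) + X 1 * C ((A i j : ℝ) : ℂ)))).re := by
  have hcard : Fintype.card (Fin m × Bool) = 2 * m := by
    rw [Fintype.card_prod, Fintype.card_fin, Fintype.card_bool, mul_comm]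
  have h1 : ∀ i, |hA.eigenvalues i| ≤ ρ := by
    intro i
    have h2 := hA.eigenvalues_eq i
    have h3 := hb (hA.eigenvectorBasis i)
    have h4 : ∑ j, (hA.eigenvectorBasis i) j ^ 2 = 1 := by
      have := hA.eigenvectorBasis.orthonormal.1 i
      have h5 := EuclideanSpace.real_norm_sq_eq (hA.eigenvectorBasis i)
      rw [this] at h5
      rw [← h5]; norm_num
    rw [h4, mul_one] at h3
    rw [h2]
    refine le_trans (le_of_eq ?_) h3
    congr 1
    simp only [dotProduct, Matrix.mulVec, Finset.mul_sum, Pi.star_apply, star_trivial,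
      RCLike.re_to_real, mul_assoc]
  have h5 : ∑ i, hA.eigenvalues i = 0 := by
    have := hA.trace_eq_sum_eigenvalues
    rw [htr] at this
    simpa using this.symm
  set mu' : Fin m × Bool → ℝ := fun i => -(hA.eigenvalues i / ρ) with hmu
  have h6 : mu' ∈ KK (Fin m × Bool) := by
    refine ⟨fun j => ?_, ?_⟩
    · simp only [hmu]
      rw [abs_neg, abs_div, abs_of_nonneg hρ]
      exact div_le_one_of_le₀ (h1 j) hρ
    · simp only [hmu]
      rw [Finset.sum_neg_distrib, ← Finset.sum_div, h5]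
      simp
  have h7 := HH_nonneg m r hcard hG mu' h6
  rw [det_diag A hA]
  have h8 : ∀ i, C ((ρ : ℂ) * Complex.I) * X 0 + X 1 * C ((hA.eigenvalues i : ℝ) : ℂ) =
      C ((ρ : ℂ) * Complex.I) * lfac (mu' i) := by
    intro i
    have h9 : ((hA.eigenvalues i : ℝ) : ℂ) = (ρ : ℂ) * Complex.I * (Complex.I * (mu' i : ℝ)) := by
      simp only [hmu]
      by_cases h0 : ρ = 0
      · have := h1 i
        rw [h0] at this
        have h10 : hA.eigenvalues i = 0 := abs_nonpos_iff.1 this
        rw [h10, h0]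
        simp
      · have h0' : (ρ : ℂ) ≠ 0 := Complex.ofReal_ne_zero.2 h0
        push_cast
        field_simp
        linear_combination (hA.eigenvalues i : ℂ) * Complex.I_sq
    rw [h9, lfac]
    simp only [C_mul]
    ring
  simp only [h8]
  rw [Finset.prod_mul_distrib, Finset.prod_const, Finset.card_univ, hcard]
  have h10 : (C ((ρ : ℂ) * Complex.I) : P2) ^ (2 * m) = C (((-1 : ℝ) ^ m * ρ ^ (2 * m) : ℝ) : ℂ) := by
    rw [← C_pow, mul_pow, pow_mul Complex.I, Complex.I_sq]
    push_cast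
    ring_nf
  rw [h10]
  have h11 : X 1 ^ (2 * r) * (C (((-1 : ℝ) ^ m * ρ ^ (2 * m) : ℝ) : ℂ) * ∏ i, lfac (mu' i)) =
      (((-1 : ℝ) ^ m * ρ ^ (2 * m) : ℝ) : ℂ) • (X 1 ^ (2 * r) * ∏ i, lfac (mu' i) : P2) := by
    rw [MvPolynomial.smul_eq_C_mul]
    ring
  rw [h11, map_smul, smul_eq_mul, Complex.re_ofReal_mul, ← mul_assoc, ← mul_assoc,
    ← mul_pow, neg_one_mul, neg_neg, one_pow, one_mul]
  exact mul_nonneg (by positivity) h7

end point

section main

theorem EE_XX (a b : ℕ) (c : ℂ) : EE (C c * (X 0 ^ a * X 1 ^ b)) = c * ((mu a * mu b : ℝ) : ℂ) := by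
  have h : (C c * (X 0 ^ a * X 1 ^ b) : P2) =
      monomial (Finsupp.single 0 a + Finsupp.single 1 b) c := by
    rw [X_pow_eq_monomial, X_pow_eq_monomial, monomial_mul, C_mul_monomial]
    simp
  rw [h, EE_monomial]
  simp

theorem prod_cnt {M K J : Type} [CommMonoid M] [Fintype K] [DecidableEq K] [Fintype J] (f : K → M)
    (β : J → K) : ∏ j, f (β j) = ∏ k, f k ^ cnt β k := by
  rw [← Finset.prod_fiberwise_of_maps_to (s := univ) (t := univ) (g := β) (fun _ _ => mem_univ _)]
  refine Finset.prod_congr rfl fun k _ => ?_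
  rw [cnt, Finset.prod_congr rfl (g := fun _ => f k), Finset.prod_const]
  intro j hj
  rw [(Finset.mem_filter.1 hj).2]

theorem sum_cnt {K J : Type} [Fintype K] [DecidableEq K] [Fintype J] (β : J → K) :
    ∑ k, cnt β k = Fintype.card J := by
  unfold cnt
  rw [← Finset.card_univ, ← Finset.card_eq_sum_card_fiberwise (f := β) (s := univ) (t := univ)
    (fun _ _ => Finset.mem_coe.2 (mem_univ _))]

variable {K : Type} [Fintype K] [DecidableEq K] {m : ℕ}

/-- `i` for the identity, `1` for the other matrices -/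
noncomputable def om : Option K → ℂ := fun o => o.elim Complex.I (fun _ => 1)

/-- the weights -/
def ew : Option K → ℝ := fun o => o.elim (-1) (fun _ => 1)

/-- add the identity to a family of matrices -/
def ext {J : Type} [DecidableEq J] (B : K → J → J → ℝ) : Option K → J → J → ℝ :=
  fun o => o.elim (fun i j => if i = j then 1 else 0) B

omit [Fintype K] [DecidableEq K] in
theorem om_sq (o : Option K) : om o ^ 2 = ((ew o : ℝ) : ℂ) := by
  cases o <;> simp [om, ew]

theorem sum_cnt_option (β : Fin m × Bool → Option K) :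
    cnt β none + ∑ k, cnt β (some k) = 2 * m := by
  have h := sum_cnt β
  rw [Fintype.sum_option, Fintype.card_prod, Fintype.card_fin, Fintype.card_bool] at h
  omega

/-- the coefficients -/
noncomputable def cf (r : ℕ) (β : Fin m × Bool → Option K) (ζ : K → ℝ) : ℝ :=
  mu (cnt β none) * mu (2 * r + ∑ k, cnt β (some k)) *
      ((∑ k, ζ k ^ 2) ^ (cnt β none / 2) * (∏ k, ζ k ^ cnt β (some k)))

theorem cf_integrable (r : ℕ) (β : Fin m × Bool → Option K) :
    Integrable fun ζ : K → ℝ => cf r β ζ * ∏ k, wt (ζ k) := by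
  have h := (mom_integrable (cnt β none / 2) (fun k => cnt β (some k))).const_mul
    (mu (cnt β none) * mu (2 * r + ∑ k, cnt β (some k)))
  refine h.congr (Filter.Eventually.of_forall fun ζ => ?_)
  simp only [cf]
  ring

theorem wick_id (r : ℕ) (hK : Fintype.card K = 2 * r + 1) (β : Fin m × Bool → Option K) :
    ∫ ζ : K → ℝ, cf r β ζ * ∏ k, wt (ζ k) = mu (2 * m + 2 * r) * wick β := by
  have h0 : ∀ ζ : K → ℝ, cf r β ζ * ∏ k, wt (ζ k) =
      (mu (cnt β none) * mu (2 * r + ∑ k, cnt β (some k))) *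
      ((∑ k, ζ k ^ 2) ^ (cnt β none / 2) * (∏ k, ζ k ^ cnt β (some k)) * ∏ k, wt (ζ k)) := by
    intro ζ
    simp only [cf]
    ring
  simp only [h0]
  rw [integral_const_mul, mom_eq (cnt β none / 2) (fun k => cnt β (some k))]
  unfold wick
  rw [Fintype.prod_option]
  have hsum := sum_cnt_option β
  obtain ⟨a, ha | ha⟩ := Nat.even_or_odd' (cnt β none)
  · have h1 := mu_step (2 * r + ∑ k, cnt β (some k)) a
    have h2 : 2 * r + ∑ k, cnt β (some k) + 2 * a = 2 * m + 2 * r := by omega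
    rw [h2] at h1
    rw [h1, ha, Nat.mul_div_cancel_left _ two_pos, hK]
    have h3 : ∏ j ∈ range a, ((2 * r + 1 + ∑ k, cnt β (some k) + 2 * j : ℕ) : ℝ) =
        ∏ j ∈ range a, ((2 * r + ∑ k, cnt β (some k) + 2 * j + 1 : ℕ) : ℝ) := by
      refine Finset.prod_congr rfl fun j _ => ?_
      congr 1
      ring
    rw [h3]
    ring
  · rw [ha, mu_odd]
    ring

/-- the linear forms -/
noncomputable def vv (ζ : K → ℝ) : Option K → P2 := fun o =>
  o.elim (C (((Real.sqrt (∑ k, ζ k ^ 2) : ℝ) : ℂ) * Complex.I) * X 0) (fun k => C ((ζ k : ℝ) : ℂ) * X 1)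

theorem cf_eq (r : ℕ) (β : Fin m × Bool → Option K) (ζ : K → ℝ)
    (B : K → Fin m × Bool → Fin m × Bool → ℝ) : cf r β ζ * FF om (ext B) β =
      (EE (X 1 ^ (2 * r) * ((∏ j, vv ζ (β j)) *
        C ((MD (fun j => ext B (β j)) : ℝ) : ℂ)))).re := by
  have h1 : ∏ j, om (β j) = Complex.I ^ cnt β none := by
    rw [prod_cnt, Fintype.prod_option]
    simp [om]
  have h2 : ∏ j, vv ζ (β j) = C ((((Real.sqrt (∑ k, ζ k ^ 2) : ℝ) : ℂ) * Complex.I) ^ cnt β none *
      ((∏ k, ζ k ^ cnt β (some k) : ℝ) : ℂ)) *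
      (X 0 ^ cnt β none * X 1 ^ (∑ k, cnt β (some k))) := by
    rw [prod_cnt, Fintype.prod_option]
    simp only [vv, Option.elim_none, Option.elim_some, mul_pow, Finset.prod_mul_distrib,
      Finset.prod_pow_eq_pow_sum, C_mul, C_pow, Complex.ofReal_prod, Complex.ofReal_pow, map_prod]
    ring
  have h3 : X 1 ^ (2 * r) * ((∏ j, vv ζ (β j)) * C ((MD (fun j => ext B (β j)) : ℝ) : ℂ)) =
      C ((((Real.sqrt (∑ k, ζ k ^ 2) : ℝ) : ℂ) * Complex.I) ^ cnt β none *
      ((∏ k, ζ k ^ cnt β (some k) : ℝ) : ℂ) * ((MD (fun j => ext B (β j)) : ℝ) : ℂ)) *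
      (X 0 ^ cnt β none * X 1 ^ (2 * r + ∑ k, cnt β (some k))) := by
    rw [h2]
    simp only [C_mul, pow_add]
    ring
  rw [h3, EE_XX]
  unfold FF cf
  rw [h1]
  obtain ⟨a, ha | ha⟩ := Nat.even_or_odd' (cnt β none)
  · have hnn : 0 ≤ ∑ k, ζ k ^ 2 := Finset.sum_nonneg fun k _ => sq_nonneg _
    have h4 : (((Real.sqrt (∑ k, ζ k ^ 2) : ℝ) : ℂ) * Complex.I) ^ (2 * a) =
        (((-1 : ℝ) ^ a * (∑ k, ζ k ^ 2) ^ a : ℝ) : ℂ) := by
      rw [mul_pow, pow_mul Complex.I, Complex.I_sq, ← Complex.ofReal_pow, pow_mul,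
        Real.sq_sqrt hnn]
      push_cast
      ring
    have h5 : (Complex.I ^ (2 * a)) = (((-1 : ℝ) ^ a : ℝ) : ℂ) := by
      rw [pow_mul, Complex.I_sq]
      push_cast
      rfl
    rw [ha, h4, h5, Nat.mul_div_cancel_left _ two_pos]
    simp only [← Complex.ofReal_mul, Complex.ofReal_re]
    ring
  · rw [ha, mu_odd]
    simp

theorem mean_nonneg (r : ℕ) (hK : Fintype.card K = 2 * r + 1) (hG : GoodB m r)
    (B : K → Fin m × Bool → Fin m × Bool → ℝ) (hs : ∀ k i j, B k i j = B k j i)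
    (ht : ∀ k, ∑ i, B k i i = 0)
    (hb : ∀ (ζ : K → ℝ) (x : Fin m × Bool → ℝ),
      |∑ i, ∑ j, x i * (∑ k, ζ k * B k i j) * x j| ≤ Real.sqrt (∑ k, ζ k ^ 2) * ∑ i, x i ^ 2) :
    0 ≤ (-1 : ℝ) ^ m * Yf (fun a b c d => ∑ o : Option K, ew o * (ext B o a b * ext B o c d)) := by
  obtain ⟨C0, hC0, hL⟩ := LW_pairs (K := Option K) m
  have hcard : Fintype.card (Fin m × Bool) = 2 * m := by
    rw [Fintype.card_prod, Fintype.card_fin, Fintype.card_bool, mul_comm]
  have h1 : LW (FF om (ext B)) = C0 * Yf (fun a b c d =>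
      ∑ o : Option K, ew o * (ext B o a b * ext B o c d)) := by
    rw [hL _ (FF_sy om (ext B)), Yf_sum]
    congr 1
    refine Finset.sum_congr rfl fun α _ => ?_
    unfold FF
    congr 1
    rw [Fintype.prod_prod_type]
    have h9 : ∀ b : Fin m, ∏ _y : Bool, om (α b) = (ew (α b) : ℂ) := by
      intro b
      rw [Fintype.prod_bool, ← om_sq]
      ring
    simp only [h9, ← Complex.ofReal_prod, Complex.ofReal_re]
  have hmu : 0 < mu (2 * m + 2 * r) := by
    have := mu_step 0 (m + r)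
    rw [zero_add, mul_add] at this
    rw [this]
    exact mul_pos (Finset.prod_pos fun j _ => by positivity) mu_zero_pos
  have h2 : mu (2 * m + 2 * r) * LW (FF om (ext B)) =
      ∫ ζ : K → ℝ, (∑ β : Fin m × Bool → Option K, cf r β ζ * FF om (ext B) β) *
        ∏ k, wt (ζ k) := by
    have h3 : ∀ ζ : K → ℝ, (∑ β : Fin m × Bool → Option K, cf r β ζ * FF om (ext B) β) *
        ∏ k, wt (ζ k) = ∑ β : Fin m × Bool → Option K,
          (cf r β ζ * ∏ k, wt (ζ k)) * FF om (ext B) β := by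
      intro ζ
      rw [Finset.sum_mul]
      exact Finset.sum_congr rfl fun β _ => by ring
    simp only [h3]
    rw [integral_finsetSum _ fun β _ => (cf_integrable r β).mul_const _]
    unfold LW
    rw [Finset.mul_sum]
    refine Finset.sum_congr rfl fun β _ => ?_
    rw [integral_mul_const, wick_id r hK β]
    ring
  have h4 : ∀ ζ : K → ℝ, 0 ≤ (-1 : ℝ) ^ m *
      (∑ β : Fin m × Bool → Option K, cf r β ζ * FF om (ext B) β) := by
    intro ζ
    have h5 : ∑ β : Fin m × Bool → Option K, cf r β ζ * FF om (ext B) β =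
        (2 * m).factorial * (EE (X 1 ^ (2 * r) * Matrix.det (Matrix.of
          fun i j : Fin m × Bool => C (((Real.sqrt (∑ k, ζ k ^ 2) : ℝ) : ℂ) * Complex.I) * X 0 *
            (if i = j then 1 else 0) + X 1 * C (((∑ k, ζ k * B k i j : ℝ)) : ℂ)))).re := by
      simp only [cf_eq]
      rw [← Complex.re_sum, ← map_sum, ← Finset.mul_sum, poly_sum, hcard]
      have h6 : ∀ i j : Fin m × Bool, ∑ o : Option K, vv ζ o * C ((ext B o i j : ℝ) : ℂ) =
          C (((Real.sqrt (∑ k, ζ k ^ 2) : ℝ) : ℂ) * Complex.I) * X 0 *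
            (if i = j then 1 else 0) + X 1 * C (((∑ k, ζ k * B k i j : ℝ)) : ℂ) := by
        intro i j
        rw [Fintype.sum_option]
        congr 1
        · simp only [vv, ext, Option.elim_none]
          by_cases hij : i = j
          · simp [hij]
          · simp [hij]
        · simp only [vv, ext, Option.elim_some, Complex.ofReal_sum, Complex.ofReal_mul, map_sum,
            C_mul, Finset.mul_sum]
          exact Finset.sum_congr rfl fun k _ => by ring
      simp only [h6]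
      have h7 : ∀ D : P2, EE (X 1 ^ (2 * r) * ((((2 * m).factorial : ℕ) : P2) * D)) =
          ((((2 * m).factorial : ℝ)) : ℂ) * EE (X 1 ^ (2 * r) * D) := by
        intro D
        have h8 : X 1 ^ (2 * r) * ((((2 * m).factorial : ℕ) : P2) * D) =
            ((((2 * m).factorial : ℝ)) : ℂ) • (X 1 ^ (2 * r) * D) := by
          rw [MvPolynomial.smul_eq_C_mul, Complex.ofReal_natCast, map_natCast]
          ring
        rw [h8, map_smul, smul_eq_mul]
      rw [h7, Complex.re_ofReal_mul]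
    rw [h5]
    have h10 := point_nonneg hG (Matrix.of fun i j : Fin m × Bool => ∑ k, ζ k * B k i j)
      (by
        ext i j
        simp only [Matrix.conjTranspose_apply, Matrix.of_apply, star_trivial]
        exact Finset.sum_congr rfl fun k _ => by rw [hs])
      (by
        simp only [Matrix.trace, Matrix.diag_apply, Matrix.of_apply]
        rw [Finset.sum_comm]
        simp only [← Finset.mul_sum, ht, mul_zero, Finset.sum_const_zero])
      (Real.sqrt (∑ k, ζ k ^ 2)) (Real.sqrt_nonneg _) (hb ζ)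
    simp only [Matrix.of_apply] at h10
    have h11 : (0 : ℝ) ≤ (2 * m).factorial := Nat.cast_nonneg _
    nlinarith [mul_nonneg h11 h10]
  have h12 : 0 ≤ (-1 : ℝ) ^ m * (mu (2 * m + 2 * r) * LW (FF om (ext B))) := by
    rw [h2, ← integral_const_mul]
    refine integral_nonneg fun ζ => ?_
    simp only [Pi.zero_apply]
    rw [← mul_assoc]
    exact mul_nonneg (h4 ζ) (Finset.prod_nonneg fun k _ => (Y489.SM.wt_pos _).le)
  rw [h1] at h12
  have h13 : 0 < mu (2 * m + 2 * r) * C0 := mul_pos hmu hC0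
  by_contra hn
  push Not at hn
  nlinarith

end main

end Pool.Agent.N565.LZ
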